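import Pool.Agent.T59.LocCor

/-!
# Locally finite kernels and kernels of wreath type

Extensions of groups of the class by locally finite kernels are in the class, and so are extensions
whose kernel embeds in a restricted direct power of a group `B` of the class in such a way that
conjugations become elements of the unrestricted wreath product of `B` and a symmetric group.
-/

set_option autoImplicit false

namespace Pool.Agent.T59

open Pool.Agent.Helper29.BA Pool.Agent.Helper29.PA

variable {C : ∀ (G : Type) [Group G], Prop}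

section fin

variable {K : Type} [Group K]

/-- The right regular representation. -/
def rreg (K : Type) [Group K] : K →* Equiv.Perm K where
  toFun x := Equiv.mulRight x⁻¹
  map_one' := by
    ext z
    simp
  map_mul' x y := by
    ext z
    simp [mul_assoc]

theorem rreg_apply (x z : K) : rreg K x z = z * x⁻¹ := rfl

theorem rreg_injective : Function.Injective (rreg K) := by
  intro x y h
  have := congrArg (fun f : Equiv.Perm K => f 1) h
  simpa [rreg_apply] using this

/-- The coordinate in the coset. -/
noncomputable def cdt (A : Subgroup K) (z : K) : A :=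
  ⟨((z : K ⧸ A).out)⁻¹ * z, QuotientGroup.eq.1 (Quotient.out_eq (z : K ⧸ A))⟩

theorem out_mul_cdt (A : Subgroup K) (z : K) : (z : K ⧸ A).out * (cdt A z : K) = z := by
  simp [cdt]

theorem mk_out_mul (A : Subgroup K) (L : K ⧸ A) (a : A) : ((L.out * (a : K) : K) : K ⧸ A) = L := by
  rw [QuotientGroup.mk_mul_of_mem _ a.2]
  exact Quotient.out_eq L

theorem cdt_out_mul (A : Subgroup K) (L : K ⧸ A) (a : A) : cdt A (L.out * (a : K)) = a := by
  apply Subtype.ext
  change ((L.out * (a : K) : K) : K ⧸ A).out⁻¹ * (L.out * (a : K)) = a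
  rw [mk_out_mul, inv_mul_cancel_left]

/-- The bijection with given coordinates. -/
noncomputable def cosetPerm {A B : Subgroup K} (ε : K ⧸ A ≃ K ⧸ B) (φ : A ≃* B) :
    Equiv.Perm K where
  toFun z := (ε z).out * (φ (cdt A z) : K)
  invFun z := (ε.symm z).out * (φ.symm (cdt B z) : K)
  left_inv z := by
    change (ε.symm (((ε z).out * (φ (cdt A z) : K) : K) : K ⧸ B)).out * _ = z
    rw [mk_out_mul, cdt_out_mul, Equiv.symm_apply_apply, MulEquiv.symm_apply_apply, out_mul_cdt]
  right_inv z := by
    change (ε (((ε.symm z).out * (φ.symm (cdt B z) : K) : K) : K ⧸ A)).out * _ = z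
    rw [mk_out_mul, cdt_out_mul, Equiv.apply_symm_apply, MulEquiv.apply_symm_apply, out_mul_cdt]

theorem cosetPerm_mul {A B : Subgroup K} (ε : K ⧸ A ≃ K ⧸ B) (φ : A ≃* B) (z : K) (a : A) :
    cosetPerm ε φ (z * (a : K)) = cosetPerm ε φ z * (φ a : K) := by
  have h1 : ((z * (a : K) : K) : K ⧸ A) = z := QuotientGroup.mk_mul_of_mem _ a.2
  have h2 : cdt A (z * (a : K)) = cdt A z * a := by
    apply Subtype.ext
    change ((z * (a : K) : K) : K ⧸ A).out⁻¹ * (z * (a : K)) = (z : K ⧸ A).out⁻¹ * z * a
    rw [h1, mul_assoc]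
  change (ε ((z * (a : K) : K) : K ⧸ A)).out * (φ (cdt A (z * (a : K))) : K) =
    (ε z).out * (φ (cdt A z) : K) * (φ a : K)
  rw [h1, h2, map_mul, mul_assoc]
  rfl

/-- Isomorphisms between subgroups of a finite group are conjugations in the symmetric group. -/
theorem exists_conj [Finite K] {A B : Subgroup K} (φ : A ≃* B) :
    ∃ q : Equiv.Perm K, ∀ a : A, q * rreg K a * q⁻¹ = rreg K (φ a) := by
  have hcard : Nat.card (K ⧸ A) = Nat.card (K ⧸ B) := by
    have h1 := A.card_eq_card_quotient_mul_card_subgroup
    have h2 := B.card_eq_card_quotient_mul_card_subgroup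
    have h3 : Nat.card A = Nat.card B := Nat.card_congr φ.toEquiv
    rw [h2, h3] at h1
    exact (Nat.eq_of_mul_eq_mul_right (Nat.card_pos) h1).symm
  obtain ⟨ε⟩ := Finite.card_eq.1 hcard
  refine ⟨cosetPerm ε φ, fun a => ?_⟩
  rw [mul_inv_eq_iff_eq_mul]
  ext z
  rw [Equiv.Perm.mul_apply, Equiv.Perm.mul_apply, rreg_apply, rreg_apply]
  have := cosetPerm_mul ε φ z a⁻¹
  simpa using this

end fin

/-- Locally finite kernels. -/
theorem mem_of_locallyFinite (hC : ExtClass C) {G R : Type} [Group G] [Group R] (p : G →* R)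
    (hR : C R) (hlf : ∀ T : Finset G, (∀ x ∈ T, p x = 1) →
      Finite (Subgroup.closure (T : Set G))) : C G := by
  classical
  have hdir : IsDirectedOrder {T : Finset G // ∀ x ∈ T, p x = 1} :=
    ⟨fun a b => ⟨⟨a.1 ∪ b.1, fun x hx => (Finset.mem_union.1 hx).elim (a.2 x) (b.2 x)⟩,
      Finset.subset_union_left, Finset.subset_union_right⟩⟩
  have hne : Nonempty {T : Finset G // ∀ x ∈ T, p x = 1} := ⟨⟨∅, by simp⟩⟩
  refine mem_of_local hC p hR
    (S := fun T : {T : Finset G // ∀ x ∈ T, p x = 1} => Subgroup.closure (T.1 : Set G))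
    (fun a b hab => Subgroup.closure_mono (by exact_mod_cast hab)) ?_ ?_
  · intro x
    constructor
    · intro hx
      exact ⟨⟨{x}, by simpa using hx⟩, Subgroup.subset_closure (by simp)⟩
    · rintro ⟨T, hT⟩
      have : Subgroup.closure (T.1 : Set G) ≤ p.ker := by
        rw [Subgroup.closure_le]
        exact fun y hy => T.2 y hy
      exact this hT
  · intro g T
    have hfin := hlf T.1 T.2
    obtain ⟨q, hq⟩ := exists_conj (phi g (Subgroup.closure (T.1 : Set G)))
    refine ⟨Equiv.Perm (Subgroup.closure (T.1 : Set G)), inferInstance, rreg _, q,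
      hC.finite _ inferInstance, rreg_injective, fun x y hxy => ?_⟩
    have hx : x ∈ domA g (Subgroup.closure (T.1 : Set G)) := by
      change g * (x : G) * g⁻¹ ∈ Subgroup.closure (T.1 : Set G)
      rw [hxy]
      exact y.2
    rw [hq ⟨x, hx⟩]
    congr 1
    exact Subtype.ext hxy

section wreath

/-- The permutations of `X` act on the functions on `X`. -/
def permFun (B X : Type) [Group B] : Equiv.Perm X →* MulAut (X → B) where
  toFun σ :=
    { toFun := fun f x => f (σ⁻¹ x)
      invFun := fun f x => f (σ x)
      left_inv := fun f => by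
        funext x
        simp
      right_inv := fun f => by
        funext x
        simp
      map_mul' := fun _ _ => rfl }
  map_one' := rfl
  map_mul' _ _ := rfl

theorem permFun_apply {B X : Type} [Group B] (σ : Equiv.Perm X) (f : X → B) (x : X) :
    permFun B X σ f x = f (σ⁻¹ x) := rfl

/-- The unrestricted wreath product of `B` and the symmetric group of `X`. -/
abbrev UW (B X : Type) [Group B] : Type := (X → B) ⋊[permFun B X] Equiv.Perm X

theorem mem_UW (hC : ClosedClass C) (B X : Type) [Group B] [Finite X] (hB : C B) :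
    C (UW B X) := by
  let p : UW B X →* Equiv.Perm X := SemidirectProduct.rightHom
  refine hC.finiteIndex _ p.ker inferInstance ?_
  have hker : ∀ x : p.ker, x.1.right = 1 := fun x => x.2
  refine hC.inj (H := X → B)
    { toFun := fun x => x.1.left
      map_one' := rfl
      map_mul' := fun a b => by
        change a.1.left * permFun B X a.1.right b.1.left = _
        rw [hker a, map_one]
        rfl } ?_ (hC.pi hB)
  intro a b hab
  apply Subtype.ext
  ext
  · exact congrFun hab _
  · rw [hker a, hker b]

open Classical in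
/-- Restrictions of permutations to finite sets extend to permutations. -/
theorem exists_perm_restrict {X : Type} (σ : Equiv.Perm X) (W : Finset X) :
    ∃ τ : Equiv.Perm W, ∀ (w : W) (h : σ w ∈ W), τ w = ⟨σ w, h⟩ := by
  let e : {w : W // σ w ∈ W} ≃ {w : W // σ⁻¹ w ∈ W} :=
    { toFun := fun w => ⟨⟨σ w.1, w.2⟩, by simp⟩
      invFun := fun w => ⟨⟨σ⁻¹ w.1, w.2⟩, by simp⟩
      left_inv := fun w => by
        ext
        simp
      right_inv := fun w => by
        ext
        simp }
  refine ⟨e.extendSubtype, fun w h => ?_⟩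
  rw [e.extendSubtype_apply_of_mem w h]
  rfl

/-- **Kernels of wreath type.** -/
theorem mem_of_wreathType (hC : ExtClass C) {G R B X : Type} [Group G] [Group R] [Group B]
    (p : G →* R) (hR : C R) (hB : C B) (ψ : G →* UW B X)
    (h1 : ∀ x, p x = 1 → (ψ x).right = 1 ∧ {a | (ψ x).left a ≠ 1}.Finite)
    (h2 : ∀ x, p x = 1 → ψ x = 1 → x = 1) : C G := by
  classical
  have hψ : ∀ x y : G, (ψ (x * y)).left = (ψ x).left * permFun B X (ψ x).right (ψ y).left :=
    fun x y => by rw [map_mul, SemidirectProduct.mul_left]
  let S : Finset X → Subgroup G := fun W =>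
    { carrier := {x | p x = 1 ∧ ∀ a ∉ W, (ψ x).left a = 1}
      one_mem' := ⟨map_one p, fun a _ => by rw [map_one]; rfl⟩
      mul_mem' := fun {x y} hx hy => ⟨by rw [map_mul, hx.1, hy.1, one_mul], fun a ha => by
        rw [hψ, Pi.mul_apply, hx.2 a ha, (h1 x hx.1).1, map_one]
        exact (one_mul _).trans (hy.2 a ha)⟩
      inv_mem' := fun {x} hx => ⟨by rw [map_inv, hx.1, inv_one], fun a ha => by
        rw [map_inv, SemidirectProduct.inv_left, (h1 x hx.1).1, inv_one, map_one]
        change ((ψ x).left a)⁻¹ = 1
        rw [hx.2 a ha, inv_one]⟩ }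
  refine mem_of_local hC p hR (S := S) ?_ ?_ ?_
  · intro V W hVW x hx
    exact ⟨hx.1, fun a ha => hx.2 a fun h => ha (hVW h)⟩
  · intro x
    constructor
    · intro hx
      refine ⟨(h1 x hx).2.toFinset, hx, fun a ha => ?_⟩
      by_contra h
      exact ha (by simpa using h)
    · rintro ⟨W, hW⟩
      exact hW.1
  · intro g W
    obtain ⟨τ, hτ⟩ := exists_perm_restrict (ψ g).right W
    refine ⟨UW B W, inferInstance,
      { toFun := fun x => ⟨fun w => (ψ x.1).left w, 1⟩
        map_one' := ?_
        map_mul' := fun x y => ?_ }, ⟨fun w => (ψ g).left w, τ⟩,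
      mem_UW hC.toClosedClass B W hB, ?_, ?_⟩
    · ext
      · change (ψ 1).left _ = 1
        rw [map_one]
        rfl
      · rfl
    · ext w
      · change (ψ (x.1 * y.1)).left w = (ψ x.1).left w * (ψ y.1).left w
        rw [hψ, (h1 x.1 x.2.1).1, map_one]
        rfl
      · simp
    · intro x y hxy
      have h3 : ∀ w ∈ W, (ψ x.1).left w = (ψ y.1).left w := fun w hw =>
        congrFun (congrArg SemidirectProduct.left hxy) ⟨w, hw⟩
      have h4 : ψ x.1 = ψ y.1 := by
        ext a
        · by_cases ha : a ∈ W
          · exact h3 a ha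
          · rw [x.2.2 a ha, y.2.2 a ha]
        · rw [(h1 x.1 x.2.1).1, (h1 y.1 y.2.1).1]
      apply Subtype.ext
      rw [← mul_inv_eq_one]
      refine h2 _ ?_ ?_
      · rw [map_mul, map_inv, x.2.1, y.2.1, inv_one, one_mul]
      · rw [map_mul, map_inv, h4, mul_inv_cancel]
    · intro x y hxy
      rw [mul_inv_eq_iff_eq_mul]
      have h3 : g * x.1 = y.1 * g := by
        rw [← hxy]
        group
      have h4 : ∀ a, (ψ g).left a * (ψ x.1).left ((ψ g).right⁻¹ a) =
          (ψ y.1).left a * (ψ g).left a := by
        intro a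
        have h5 := congrArg (fun z => (ψ z).left a) h3
        simp only [hψ] at h5
        rw [(h1 y.1 y.2.1).1, map_one] at h5
        exact h5
      ext w
      · change (ψ g).left w * (ψ x.1).left (τ⁻¹ w : W) = (ψ y.1).left w * (ψ g).left w
        rw [← h4]
        congr 1
        by_cases hw : (ψ g).right⁻¹ (w : X) ∈ W
        · have h6 : τ ⟨(ψ g).right⁻¹ (w : X), hw⟩ = w := by
            rw [hτ _ (by rw [app_inv]; exact w.2)]
            apply Subtype.ext
            exact app_inv _ _
          have h7 : τ⁻¹ w = ⟨(ψ g).right⁻¹ (w : X), hw⟩ := by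
            rw [Equiv.Perm.inv_eq_iff_eq]
            exact h6.symm
          rw [h7]
        · rw [x.2.2 _ hw]
          by_cases hv : (ψ g).right ((τ⁻¹ w : W) : X) ∈ W
          · exfalso
            have h6 := hτ _ hv
            rw [app_inv] at h6
            apply hw
            rw [h6, inv_app]
            exact (τ⁻¹ w).2
          · have h6 := h4 ((ψ g).right ((τ⁻¹ w : W) : X))
            rw [inv_app, y.2.2 _ hv, one_mul] at h6
            exact mul_eq_left.1 h6
      · simp

end wreath

end Pool.Agent.T59
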