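import Pool.Agent.T59.D

/-!
# Groups acting on trees with abelian kernels on the vertex stabilisers
-/

set_option autoImplicit false

namespace Pool.Agent.T59

open Pool.Agent.Helper29.BA Pool.Agent.Helper29.PA
open scoped commutatorElement

/-- Let `K` be generated by its vertex stabilisers and let these be abelian. Then the commutator
subgroup of `K` meets the vertex stabilisers trivially. -/
theorem eq_one_of_mem_commutator {K V : Type} [Group K] [MulAction K V] {T : SimpleGraph V}
    (hT : TreeAct K V T) (hgen : Subgroup.closure {k : K | ∃ v : V, k • v = v} = ⊤)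
    (hab : ∀ (v : V) (a b : K), a • v = v → b • v = v → a * b = b * a)
    (v : V) (n : K) (hn : n • v = v) (hc : n ∈ commutator K) : n = 1 := by
  by_contra hn1
  obtain ⟨χ, h1, h2, h3, h4⟩ := exists_family hT hab hgen v n hn hn1
  obtain ⟨φ, hφ⟩ := exists_character hT χ h1 h2 h3
  have h5 : φ n = 1 := Abelianization.commutator_subset_ker φ hc
  rw [hφ v n hn] at h5
  exact h4 h5

/-- Extensions with abelian kernel. -/
theorem mem_of_abelian_kernel {C : ∀ (G : Type) [Group G], Prop} (hC : ExtClass C)
    (hA : HasAbCyclic C) {G Q : Type} [Group G] [Group Q] (p : G →* Q) (hQ : C Q)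
    (hab : ∀ a b : G, p a = 1 → p b = 1 → a * b = b * a) : C G := by
  refine hC.ext G Q p hQ fun q => ?_
  let f : (Subgroup.zpowers q).comap p →* Subgroup.zpowers q :=
    p.subgroupComap (Subgroup.zpowers q)
  refine hA _ f.ker ?_ ?_
  · intro a ha b hb
    apply Subtype.ext
    exact hab _ _ (congrArg Subtype.val ha) (congrArg Subtype.val hb)
  · exact isCyclic_of_injective (QuotientGroup.kerLift f) (QuotientGroup.kerLift_injective f)

/-- **Theorem T.** -/
theorem mem_of_treeAct {C : ∀ (G : Type) [Group G], Prop} (hC : ExtClass C)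
    (hA : HasAbCyclic C) {G Q V : Type} [Group G] [Group Q] [MulAction G V] {T : SimpleGraph V}
    (hT : TreeAct G V T) (p : G →* Q) (hQ : C Q)
    (hab : ∀ (v : V) (a b : G), a • v = v → b • v = v → p a = 1 → p b = 1 → a * b = b * a) :
    C G := by
  set S : Set G := {k : G | k ∈ p.ker ∧ ∃ v : V, k • v = v} with hS
  set K0 : Subgroup G := Subgroup.closure S with hK0
  have hnorm : K0.Normal := by
    refine ⟨fun k hk g => ?_⟩
    induction hk using Subgroup.closure_induction with
    | mem x hx =>
      obtain ⟨h1, v, hv⟩ := hx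
      refine Subgroup.subset_closure ⟨p.normal_ker.conj_mem x h1 g, g • v, ?_⟩
      rw [mul_smul, mul_smul, inv_smul_smul, hv]
    | one => simp
    | mul x y _ _ hx hy =>
      have : g * (x * y) * g⁻¹ = (g * x * g⁻¹) * (g * y * g⁻¹) := by group
      rw [this]
      exact mul_mem hx hy
    | inv x _ hx =>
      have : g * x⁻¹ * g⁻¹ = (g * x * g⁻¹)⁻¹ := by group
      rw [this]
      exact inv_mem hx
  have hK0K : K0 ≤ p.ker := (Subgroup.closure_le _).2 fun x hx => hx.1
  have hQ' : C (G ⧸ p.ker) :=
    hC.toClosedClass.inj (QuotientGroup.kerLift p) (QuotientGroup.kerLift_injective p) hQ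
  have h0 : C (G ⧸ K0) := mem_quot_closure hC hT p.ker K0 hK0 hQ'
  set L : Subgroup G := ⁅K0, K0⁆ with hL
  have hLK : L ≤ K0 := Subgroup.commutator_le_left K0 K0
  have h1 : C (G ⧸ L) := by
    refine mem_of_abelian_kernel hC hA (QuotientGroup.map L K0 (MonoidHom.id G) hLK) h0 ?_
    intro a b
    induction a using QuotientGroup.induction_on with
    | H a =>
      induction b using QuotientGroup.induction_on with
      | H b =>
        intro ha hb
        have ha' : a ∈ K0 := (QuotientGroup.eq_one_iff a).1 ha
        have hb' : b ∈ K0 := (QuotientGroup.eq_one_iff b).1 hb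
        rw [← QuotientGroup.mk_mul, ← QuotientGroup.mk_mul, QuotientGroup.eq]
        have : (a * b)⁻¹ * (b * a) = ⁅b⁻¹, a⁻¹⁆ := by
          rw [commutatorElement_def]
          group
        rw [this]
        exact Subgroup.commutator_mem_commutator (inv_mem hb') (inv_mem ha')
  have hT0 : TreeAct K0 V T :=
    { tree := hT.tree
      adj := fun g => hT.adj (g : G)
      noinv := fun g => hT.noinv (g : G) }
  have hgen : Subgroup.closure {k : K0 | ∃ v : V, k • v = v} = ⊤ := by
    rw [← top_le_iff, ← Subgroup.closure_closure_coe_preimage (k := S)]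
    refine Subgroup.closure_mono fun k hk => ?_
    exact hk.2
  have hab0 : ∀ (v : V) (a b : K0), a • v = v → b • v = v → a * b = b * a := by
    intro v a b ha hb
    exact Subtype.ext (hab v a b ha hb (hK0K a.2) (hK0K b.2))
  have hbot : (⊥ : Subgroup G) = Subgroup.closure {k : G | k ∈ L ∧ ∃ v : V, k • v = v} := by
    symm
    rw [Subgroup.closure_eq_bot_iff]
    rintro k ⟨hk, v, hv⟩
    rw [hL, ← Subgroup.map_subtype_commutator] at hk
    obtain ⟨n, hn, rfl⟩ := hk
    have := eq_one_of_mem_commutator hT0 hgen hab0 v n hv hn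
    rw [this]
    rfl
  have h2 : C (G ⧸ (⊥ : Subgroup G)) := mem_quot_closure hC hT L ⊥ hbot h1
  exact hC.iso _ _ QuotientGroup.quotientBot h2

end Pool.Agent.T59
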