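import Pool.Agent.T59.C

/-!
# Compatible characters of the vertex stabilisers

Let `K` act on a tree, let it be generated by its vertex stabilisers and let these be abelian.
Then for every vertex `v₀` and every `n ≠ 1` which fixes `v₀` there are compatible characters of
the vertex stabilisers with values in `ℚ / ℤ` such that the value at `n` is not `0`.
-/

set_option autoImplicit false

namespace Pool.Agent.T59

open SimpleGraph

section height

variable {K V : Type} [Group K] [MulAction K V] (T : SimpleGraph V) (v₀ : V)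

/-- `v` can be reached by a path of length `n` from the orbit of `v₀`. -/
def Reach (K : Type) [Group K] [MulAction K V] : ℕ → V → Prop
  | 0, v => ∃ k : K, k • v₀ = v
  | n + 1, v => ∃ u, T.Adj u v ∧ Reach K n u

variable {T v₀}

theorem reach_smul (hT : TreeAct K V T) (n : ℕ) : ∀ (k : K) (v : V), Reach T v₀ K n v →
    Reach T v₀ K n (k • v) := by
  induction n with
  | zero =>
    rintro k v ⟨l, rfl⟩
    exact ⟨k * l, mul_smul _ _ _⟩
  | succ n ih =>
    rintro k v ⟨u, h1, h2⟩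
    exact ⟨k • u, hT.adj k h1, ih k u h2⟩

theorem exists_reach (hT : TreeAct K V T) (v : V) : ∃ n, Reach T v₀ K n v := by
  obtain ⟨p⟩ := hT.tree.connected v v₀
  induction p with
  | nil => exact ⟨0, 1, one_smul _ _⟩
  | cons h p ih =>
    obtain ⟨n, hn⟩ := ih
    exact ⟨n + 1, _, h.symm, hn⟩

open Classical in
/-- The distance to the orbit of `v₀`. -/
noncomputable def ht (hT : TreeAct K V T) (v₀ : V) (v : V) : ℕ := Nat.find (exists_reach (v₀ := v₀) hT v)

theorem ht_reach (hT : TreeAct K V T) (v : V) : Reach T v₀ K (ht hT v₀ v) v := by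
  classical
  exact Nat.find_spec (exists_reach (v₀ := v₀) hT v)

theorem ht_le (hT : TreeAct K V T) {n : ℕ} {v : V} (h : Reach T v₀ K n v) : ht hT v₀ v ≤ n := by
  classical
  exact Nat.find_min' _ h

theorem ht_smul (hT : TreeAct K V T) (k : K) (v : V) : ht hT v₀ (k • v) = ht hT v₀ v := by
  refine le_antisymm (ht_le hT (reach_smul hT _ k v (ht_reach hT v))) (ht_le hT ?_)
  have := reach_smul hT _ k⁻¹ _ (ht_reach (v₀ := v₀) hT (k • v))
  rwa [inv_smul_smul] at this

theorem ht_adj (hT : TreeAct K V T) {u v : V} (h : T.Adj u v) : ht hT v₀ v ≤ ht hT v₀ u + 1 :=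
  ht_le hT ⟨u, h, ht_reach hT u⟩

theorem exists_lower (hT : TreeAct K V T) {m : ℕ} {v : V} (h : ht hT v₀ v = m + 1) :
    ∃ u, T.Adj u v ∧ ht hT v₀ u = m := by
  have h1 := ht_reach (v₀ := v₀) hT v
  rw [h] at h1
  obtain ⟨u, h2, h3⟩ := h1
  refine ⟨u, h2, le_antisymm (ht_le hT h3) ?_⟩
  have := ht_adj (v₀ := v₀) hT h2
  omega

theorem ht_zero (hT : TreeAct K V T) {v : V} (h : ht hT v₀ v = 0) : ∃ k : K, k • v₀ = v := by
  have h1 := ht_reach (v₀ := v₀) hT v
  rw [h] at h1
  exact h1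

theorem ht_base (hT : TreeAct K V T) : ht hT v₀ v₀ = 0 :=
  Nat.le_zero.1 (ht_le hT ⟨1, one_smul _ _⟩)

/-- Increasing paths. -/
structure Inc (hT : TreeAct K V T) (v₀ : V) (p : ℕ → V) (n : ℕ) : Prop where
  adj : ∀ i < n, T.Adj (p i) (p (i + 1))
  ht : ∀ i ≤ n, ht hT v₀ (p i) = i

theorem exists_inc (hT : TreeAct K V T) (n : ℕ) : ∀ v : V, ht hT v₀ v = n →
    ∃ p : ℕ → V, Inc hT v₀ p n ∧ p n = v := by
  induction n with
  | zero =>
    intro v hv
    exact ⟨fun _ => v, ⟨fun i hi => absurd hi (Nat.not_lt_zero i), fun i hi => by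
      rw [Nat.le_zero.1 hi, hv]⟩, rfl⟩
  | succ n ih =>
    intro v hv
    obtain ⟨u, huv, hu⟩ := exists_lower hT hv
    obtain ⟨p, hp, hpu⟩ := ih u hu
    refine ⟨fun i => if i ≤ n then p i else v, ⟨fun i hi => ?_, fun i hi => ?_⟩, ?_⟩
    · by_cases h : i < n
      · change T.Adj (if i ≤ n then p i else v) (if i + 1 ≤ n then p (i + 1) else v)
        rw [if_pos h.le, if_pos (show i + 1 ≤ _ from h)]
        exact hp.adj i h
      · have : i = n := by omega
        subst this
        change T.Adj (if i ≤ i then p i else v) (if i + 1 ≤ i then p (i + 1) else v)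
        rw [if_pos le_rfl, if_neg (by omega), hpu]
        exact huv
    · by_cases h : i ≤ n
      · change T59.ht hT v₀ (if i ≤ n then p i else v) = i
        rw [if_pos h]
        exact hp.ht i h
      · change T59.ht hT v₀ (if i ≤ n then p i else v) = i
        rw [if_neg h, hv]
        omega
    · change (if n + 1 ≤ n then p (n + 1) else v) = v
      rw [if_neg (by omega)]

theorem inc_back (hT : TreeAct K V T) {p : ℕ → V} {n : ℕ} (hp : Inc hT v₀ p n) (i : ℕ)
    (hi : i + 1 < n) :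
    pr (⊤ : Subgroup K) (p (i + 1)) (p i) ≠ pr (⊤ : Subgroup K) (p (i + 1)) (p (i + 2)) := by
  intro h
  obtain ⟨k, -, -, h2⟩ := pr_eq_iff.1 h
  have h3 := ht_smul (v₀ := v₀) hT k (p i)
  rw [h2, hp.ht i (by omega), hp.ht (i + 2) (by omega)] at h3
  omega

/-- Words of vertices are invariant if `K` is generated by its vertex stabilisers. -/
theorem word_inv (hT : TreeAct K V T)
    (hgen : Subgroup.closure {k : K | ∃ v : V, k • v = v} = ⊤)
    {W : V → FreeGroup (PairOrb (⊤ : Subgroup K) V)} (hW : IsWord T ⊤ W) (k : K) (v : V) :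
    W (k • v) = W v := by
  refine word_fix hT ⊤ hW k ?_ v
  have : fixSet (⊤ : Subgroup K) V = {k : K | ∃ v : V, k • v = v} := by
    ext k
    simp [fixSet]
  rw [this, hgen]
  exact Subgroup.mem_top k

theorem mk_inj {α : Type} {L L' : List (α × Bool)} (h : FreeGroup.IsReduced L)
    (h' : FreeGroup.IsReduced L') (hL : FreeGroup.mk L = FreeGroup.mk L') : L = L' := by
  classical
  have := congrArg FreeGroup.toWord hL
  rwa [FreeGroup.toWord_mk, FreeGroup.toWord_mk, h.reduce_eq, h'.reduce_eq] at this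

/-- Two letter lists of paths from the orbit of `v₀` to `v` agree if they are reduced. -/
theorem letters_eq (hT : TreeAct K V T)
    (hgen : Subgroup.closure {k : K | ∃ v : V, k • v = v} = ⊤)
    {p q : ℕ → V} {m n : ℕ}
    (hp : ∀ i < m, T.Adj (p i) (p (i + 1))) (hq : ∀ i < n, T.Adj (q i) (q (i + 1)))
    (hpb : ∀ i, i + 1 < m →
      pr (⊤ : Subgroup K) (p (i + 1)) (p i) ≠ pr (⊤ : Subgroup K) (p (i + 1)) (p (i + 2)))
    (hqb : ∀ i, i + 1 < n →
      pr (⊤ : Subgroup K) (q (i + 1)) (q i) ≠ pr (⊤ : Subgroup K) (q (i + 1)) (q (i + 2)))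
    (h0 : ∃ k : K, k • p 0 = q 0) (h1 : p m = q n) :
    letters (⊤ : Subgroup K) p m = letters ⊤ q n := by
  obtain ⟨W, hW⟩ := exists_word hT (⊤ : Subgroup K)
  refine mk_inj (letters_reduced hT ⊤ p m hp hpb) (letters_reduced hT ⊤ q n hq hqb) ?_
  have h2 := mk_letters ⊤ hW p m hp
  have h3 := mk_letters ⊤ hW q n hq
  obtain ⟨k, hk⟩ := h0
  rw [← hk, word_inv hT hgen hW, ← h1, h2] at h3
  exact mul_left_cancel h3

theorem length_letters (p : ℕ → V) (n : ℕ) : (letters (⊤ : Subgroup K) p n).length = 2 * n := by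
  induction n with
  | zero => rfl
  | succ n ih => rw [letters, List.length_append, ih]; simp; ring

theorem ht_zero_orbit (hT : TreeAct K V T) {u v : V} (hu : ht hT v₀ u = 0)
    (hv : ht hT v₀ v = 0) : ∃ k : K, k • u = v := by
  obtain ⟨k, rfl⟩ := ht_zero hT hu
  obtain ⟨l, rfl⟩ := ht_zero hT hv
  exact ⟨l * k⁻¹, by rw [mul_smul, inv_smul_smul]⟩

/-- Adjacent vertices have different heights. -/
theorem ht_ne (hT : TreeAct K V T)
    (hgen : Subgroup.closure {k : K | ∃ v : V, k • v = v} = ⊤) {u v : V} (huv : T.Adj u v) :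
    ht hT v₀ u ≠ ht hT v₀ v := by
  intro h
  obtain ⟨p, hp, hpv⟩ := exists_inc hT _ v rfl
  obtain ⟨q, hq, hqu⟩ := exists_inc hT _ u rfl
  set n := ht hT v₀ v with hn
  rw [h] at hq hqu
  -- the path `q` followed by `v`
  let q' : ℕ → V := fun i => if i ≤ n then q i else v
  have hq'n : q' (n + 1) = v := if_neg (by omega)
  have hq'le : ∀ i ≤ n, q' i = q i := fun i hi => if_pos hi
  have e := letters_eq (p := p) (q := q') (m := n) (n := n + 1) hT hgen hp.adj (by
      intro i hi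
      by_cases h1 : i < n
      · rw [hq'le i h1.le, hq'le (i + 1) h1]
        exact hq.adj i h1
      · have : i = n := by omega
        rw [this, hq'le n le_rfl, hq'n, hqu]
        exact huv) (inc_back hT hp) (by
      intro i hi
      by_cases h1 : i + 1 < n
      · rw [hq'le i (by omega), hq'le (i + 1) (by omega), hq'le (i + 2) (by omega)]
        exact inc_back hT hq i h1
      · have : i + 1 = n := by omega
        rw [hq'le i (by omega), hq'le (i + 1) (by omega), show i + 2 = n + 1 by omega, hq'n]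
        intro h2
        obtain ⟨k, -, -, h3⟩ := pr_eq_iff.1 h2
        have h4 := ht_smul (v₀ := v₀) hT k (q i)
        rw [h3, hq.ht i (by omega), ← hn] at h4
        omega)
    (ht_zero_orbit hT (hp.ht 0 (Nat.zero_le _)) (by
      rw [hq'le 0 (Nat.zero_le _)]; exact hq.ht 0 (Nat.zero_le _)))
    (by rw [hpv, hq'n])
  have := congrArg List.length e
  rw [length_letters, length_letters] at this
  omega

/-- The lower neighbours of a vertex form one orbit of its stabiliser. -/
theorem exists_fix (hT : TreeAct K V T)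
    (hgen : Subgroup.closure {k : K | ∃ v : V, k • v = v} = ⊤) {u u' v : V} {m : ℕ}
    (hv : ht hT v₀ v = m + 1) (hu : ht hT v₀ u = m) (hu' : ht hT v₀ u' = m)
    (huv : T.Adj u v) (huv' : T.Adj u' v) : ∃ k : K, k • v = v ∧ k • u = u' := by
  have key : ∀ w : V, ht hT v₀ w = m → T.Adj w v →
      ∃ p : ℕ → V, Inc hT v₀ p (m + 1) ∧ p (m + 1) = v ∧ p m = w := by
    intro w hw hwv
    obtain ⟨p, hp, hpw⟩ := exists_inc hT m w hw
    have hle : ∀ i ≤ m, (if i ≤ m then p i else v) = p i := fun i hi => if_pos hi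
    refine ⟨fun i => if i ≤ m then p i else v, ⟨fun i hi => ?_, fun i hi => ?_⟩, ?_, ?_⟩
    · by_cases h : i < m
      · change T.Adj (if i ≤ m then p i else v) (if i + 1 ≤ m then p (i + 1) else v)
        rw [if_pos h.le, if_pos (show i + 1 ≤ _ from h)]
        exact hp.adj i h
      · have : i = m := by omega
        subst this
        change T.Adj (if i ≤ i then p i else v) (if i + 1 ≤ i then p (i + 1) else v)
        rw [if_pos le_rfl, if_neg (by omega), hpw]
        exact hwv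
    · by_cases h : i ≤ m
      · change T59.ht hT v₀ (if i ≤ m then p i else v) = i
        rw [if_pos h]
        exact hp.ht i h
      · change T59.ht hT v₀ (if i ≤ m then p i else v) = i
        rw [if_neg h, hv]
        omega
    · change (if m + 1 ≤ m then p (m + 1) else v) = v
      rw [if_neg (by omega)]
    · change (if m ≤ m then p m else v) = w
      rw [if_pos le_rfl, hpw]
  obtain ⟨p, hp, hp1, hp2⟩ := key u hu huv
  obtain ⟨q, hq, hq1, hq2⟩ := key u' hu' huv'
  have e := letters_eq hT hgen hp.adj hq.adj (inc_back hT hp) (inc_back hT hq)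
    (ht_zero_orbit hT (hp.ht 0 (Nat.zero_le _)) (hq.ht 0 (Nat.zero_le _))) (by rw [hp1, hq1])
  have e1 := congrArg List.getLast? e
  rw [getLast_letters, getLast_letters, hp1, hp2, hq1, hq2] at e1
  simp only [Option.some.injEq, Prod.mk.injEq, and_true] at e1
  obtain ⟨k, -, h1, h2⟩ := pr_eq_iff.1 e1
  exact ⟨k, h1, h2⟩

end height

/-! ### Extension of characters -/

section ext

variable {K : Type} [Group K]

/-- Characters with values in `ℚ / ℤ` extend from subgroups of abelian groups. -/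
theorem exists_ext (S S' : Subgroup K) (hS : ∀ a ∈ S, ∀ b ∈ S, a * b = b * a) (hle : S' ≤ S)
    (f : K → AddCircle (1 : ℚ)) (hf : ∀ a ∈ S', ∀ b ∈ S', f (a * b) = f a + f b) :
    ∃ ψ : K → AddCircle (1 : ℚ), (∀ a ∈ S, ∀ b ∈ S, ψ (a * b) = ψ a + ψ b) ∧
      ∀ a ∈ S', ψ a = f a := by
  classical
  let _ : CommGroup S := { (inferInstance : Group S) with
    mul_comm := fun a b => Subtype.ext (hS _ a.2 _ b.2) }
  let _ : CommGroup S' := { (inferInstance : Group S') with
    mul_comm := fun a b => Subtype.ext (hS _ (hle a.2) _ (hle b.2)) }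
  let i : Additive S' →ₗ[ℤ] Additive S :=
    (MonoidHom.toAdditive (Subgroup.inclusion hle)).toIntLinearMap
  have hi : Function.Injective i := by
    intro a b hab
    have h1 : Subgroup.inclusion hle (Additive.toMul a) = Subgroup.inclusion hle (Additive.toMul b) :=
      hab
    exact Subgroup.inclusion_injective hle h1
  have hf1 : f 1 = 0 := by
    have := hf 1 (one_mem _) 1 (one_mem _)
    rw [mul_one] at this
    exact left_eq_add.1 this
  let c : CharacterModule (Additive S') :=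
    { toFun := fun a => f (Additive.toMul a : S')
      map_zero' := hf1
      map_add' := fun a b => hf _ (Additive.toMul a).2 _ (Additive.toMul b).2 }
  obtain ⟨c', hc'⟩ := CharacterModule.dual_surjective_of_injective i hi c
  refine ⟨fun a => if h : a ∈ S then c' (Additive.ofMul (⟨a, h⟩ : S)) else 0, ?_, ?_⟩
  · intro a ha b hb
    change (if h : a * b ∈ S then c' (Additive.ofMul (⟨a * b, h⟩ : S)) else 0) =
      (if h : a ∈ S then c' (Additive.ofMul (⟨a, h⟩ : S)) else 0) +
      (if h : b ∈ S then c' (Additive.ofMul (⟨b, h⟩ : S)) else 0)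
    rw [dif_pos (mul_mem ha hb), dif_pos ha, dif_pos hb]
    exact map_add c' (Additive.ofMul (⟨a, ha⟩ : S)) (Additive.ofMul (⟨b, hb⟩ : S))
  · intro a ha
    change (if h : a ∈ S then c' (Additive.ofMul (⟨a, h⟩ : S)) else 0) = f a
    rw [dif_pos (hle ha)]
    exact DFunLike.congr_fun hc' (Additive.ofMul (⟨a, ha⟩ : S'))

/-- Characters separate the elements of abelian groups. -/
theorem exists_sep (S : Subgroup K) (hS : ∀ a ∈ S, ∀ b ∈ S, a * b = b * a) (n : K) (hn : n ∈ S)
    (hn1 : n ≠ 1) :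
    ∃ ψ : K → AddCircle (1 : ℚ), (∀ a ∈ S, ∀ b ∈ S, ψ (a * b) = ψ a + ψ b) ∧ ψ n ≠ 0 := by
  classical
  let _ : CommGroup S := { (inferInstance : Group S) with
    mul_comm := fun a b => Subtype.ext (hS _ a.2 _ b.2) }
  have hne : Additive.ofMul (⟨n, hn⟩ : S) ≠ 0 := by
    intro h
    exact hn1 (congrArg Subtype.val (show (⟨n, hn⟩ : S) = 1 from h))
  obtain ⟨c', hc'⟩ := CharacterModule.exists_character_apply_ne_zero_of_ne_zero hne
  refine ⟨fun a => if h : a ∈ S then c' (Additive.ofMul (⟨a, h⟩ : S)) else 0, ?_, ?_⟩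
  · intro a ha b hb
    change (if h : a * b ∈ S then c' (Additive.ofMul (⟨a * b, h⟩ : S)) else 0) =
      (if h : a ∈ S then c' (Additive.ofMul (⟨a, h⟩ : S)) else 0) +
      (if h : b ∈ S then c' (Additive.ofMul (⟨b, h⟩ : S)) else 0)
    rw [dif_pos (mul_mem ha hb), dif_pos ha, dif_pos hb]
    exact map_add c' (Additive.ofMul (⟨a, ha⟩ : S)) (Additive.ofMul (⟨b, hb⟩ : S))
  · change (if h : n ∈ S then c' (Additive.ofMul (⟨n, h⟩ : S)) else 0) ≠ 0
    rw [dif_pos hn]
    exact hc'

end ext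

/-! ### The family -/

section family

variable {K V : Type} [Group K] [MulAction K V] {T : SimpleGraph V}

theorem vr_vr (v : V) : vr K (vr K v) = vr K v := by
  have := vr_smul (vg K v) (vr K v)
  rw [vg_smul] at this
  exact this.symm

theorem ht_vr (hT : TreeAct K V T) (v₀ v : V) : ht hT v₀ (vr K v) = ht hT v₀ v := by
  have := ht_smul (v₀ := v₀) hT (vg K v) (vr K v)
  rw [vg_smul] at this
  exact this.symm

/-- A lower neighbour. -/
noncomputable def par (hT : TreeAct K V T) (v₀ r : V) : V :=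
  @Classical.epsilon V ⟨v₀⟩ (fun u => T.Adj u r ∧ ht hT v₀ u + 1 = ht hT v₀ r)

theorem par_spec (hT : TreeAct K V T) {v₀ r : V} {m : ℕ} (h : ht hT v₀ r = m + 1) :
    T.Adj (par hT v₀ r) r ∧ ht hT v₀ (par hT v₀ r) = m := by
  have h1 : ∃ u, T.Adj u r ∧ ht hT v₀ u + 1 = ht hT v₀ r := by
    obtain ⟨u, h1, h2⟩ := exists_lower hT h
    exact ⟨u, h1, by rw [h2, h]⟩
  have h2 := @Classical.epsilon_spec V _ h1
  refine ⟨h2.1, ?_⟩
  have h3 : ht hT v₀ (par hT v₀ r) + 1 = ht hT v₀ r := h2.2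
  omega

/-- The characters of the stabilisers of the representatives. -/
noncomputable def Psi (hT : TreeAct K V T) (v₀ : V) (ψ : K → AddCircle (1 : ℚ)) :
    ℕ → V → K → AddCircle (1 : ℚ)
  | 0 => fun _ => ψ
  | m + 1 => fun r => Classical.epsilon (fun φ : K → AddCircle (1 : ℚ) =>
      (∀ a ∈ MulAction.stabilizer K r, ∀ b ∈ MulAction.stabilizer K r, φ (a * b) = φ a + φ b) ∧
      ∀ a ∈ MulAction.stabilizer K r ⊓ MulAction.stabilizer K (par hT v₀ r),
        φ a = Psi hT v₀ ψ m (vr K (par hT v₀ r))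
          ((vg K (par hT v₀ r))⁻¹ * a * vg K (par hT v₀ r)))

/-- The characters of the stabilisers of the representatives. -/
noncomputable def psi (hT : TreeAct K V T) (v₀ : V) (ψ : K → AddCircle (1 : ℚ)) (r : V) :
    K → AddCircle (1 : ℚ) := Psi hT v₀ ψ (ht hT v₀ r) r

/-- The characters of the stabilisers. -/
noncomputable def chi (hT : TreeAct K V T) (v₀ : V) (ψ : K → AddCircle (1 : ℚ)) (v : V) (a : K) :
    AddCircle (1 : ℚ) := psi hT v₀ ψ (vr K v) ((vg K v)⁻¹ * a * vg K v)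

theorem conj_mem_stab {v : V} {a : K} (ha : a • v = v) :
    (vg K v)⁻¹ * a * vg K v ∈ MulAction.stabilizer K (vr K v) := by
  rw [MulAction.mem_stabilizer_iff, mul_smul, mul_smul, vg_smul, ha, inv_smul_eq_iff, vg_smul]

variable (hT : TreeAct K V T)
  (hab : ∀ (v : V) (a b : K), a • v = v → b • v = v → a * b = b * a)
  {v₀ : V} {ψ : K → AddCircle (1 : ℚ)}
  (hψ : ∀ a ∈ MulAction.stabilizer K (vr K v₀), ∀ b ∈ MulAction.stabilizer K (vr K v₀),
    ψ (a * b) = ψ a + ψ b)

include hab hψ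

theorem psi_spec (m : ℕ) : ∀ r : V, vr K r = r → ht hT v₀ r = m →
    (∀ a ∈ MulAction.stabilizer K r, ∀ b ∈ MulAction.stabilizer K r,
      psi hT v₀ ψ r (a * b) = psi hT v₀ ψ r a + psi hT v₀ ψ r b) ∧
    ∀ k, m = k + 1 → ∀ a ∈ MulAction.stabilizer K r ⊓ MulAction.stabilizer K (par hT v₀ r),
      psi hT v₀ ψ r a = chi hT v₀ ψ (par hT v₀ r) a := by
  induction m with
  | zero =>
    intro r hr hm
    refine ⟨?_, fun k hk => absurd hk (by omega)⟩
    obtain ⟨k, hk⟩ := ht_zero hT hm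
    have h1 : r = vr K v₀ := by rw [← hr, ← hk, vr_smul]
    have h2 : psi hT v₀ ψ r = ψ := by rw [psi, hm]; rfl
    rw [h2, h1]
    exact hψ
  | succ m ih =>
    intro r hr hm
    obtain ⟨h1, h2⟩ := par_spec hT hm
    set u := par hT v₀ r with hu
    have h3 : psi hT v₀ ψ (vr K u) = Psi hT v₀ ψ m (vr K u) := by
      rw [psi, ht_vr, h2]
    have h4 := ih (vr K u) (vr_vr u) (by rw [ht_vr, h2])
    have h5 := exists_ext (MulAction.stabilizer K r)
      (MulAction.stabilizer K r ⊓ MulAction.stabilizer K u)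
      (fun a ha b hb => hab r a b ha hb) inf_le_left
      (fun a => Psi hT v₀ ψ m (vr K u) ((vg K u)⁻¹ * a * vg K u)) (fun a ha b hb => by
        have e : (vg K u)⁻¹ * (a * b) * vg K u =
            ((vg K u)⁻¹ * a * vg K u) * ((vg K u)⁻¹ * b * vg K u) := by group
        change Psi hT v₀ ψ m (vr K u) ((vg K u)⁻¹ * (a * b) * vg K u) = _
        rw [e, ← h3]
        exact h4.1 _ (conj_mem_stab ha.2) _ (conj_mem_stab hb.2))
    have h6 := Classical.epsilon_spec h5
    have h7 : psi hT v₀ ψ r = Classical.epsilon (fun φ : K → AddCircle (1 : ℚ) =>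
      (∀ a ∈ MulAction.stabilizer K r, ∀ b ∈ MulAction.stabilizer K r, φ (a * b) = φ a + φ b) ∧
      ∀ a ∈ MulAction.stabilizer K r ⊓ MulAction.stabilizer K u,
        φ a = Psi hT v₀ ψ m (vr K u) ((vg K u)⁻¹ * a * vg K u)) := by
      rw [psi, hm]
      rfl
    rw [← h7] at h6
    refine ⟨h6.1, fun k _ a ha => ?_⟩
    rw [h6.2 a ha, chi, h3]

theorem chi_mul (v : V) (a b : K) (ha : a • v = v) (hb : b • v = v) :
    chi hT v₀ ψ v (a * b) = chi hT v₀ ψ v a + chi hT v₀ ψ v b := by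
  have e : (vg K v)⁻¹ * (a * b) * vg K v =
      ((vg K v)⁻¹ * a * vg K v) * ((vg K v)⁻¹ * b * vg K v) := by group
  rw [chi, e]
  exact (psi_spec hT hab hψ _ (vr K v) (vr_vr v) rfl).1 _ (conj_mem_stab ha) _ (conj_mem_stab hb)

omit hψ in
theorem chi_conj (v : V) (k a : K) (ha : a • v = v) :
    chi hT v₀ ψ (k • v) (k * a * k⁻¹) = chi hT v₀ ψ v a := by
  have h1 : vr K (k • v) = vr K v := vr_smul k v
  rw [chi, chi, h1]
  congr 1
  set g := vg K v with hg
  set g' := vg K (k • v) with hg'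
  have h2 : g' • vr K v = k • v := by
    have := vg_smul (K := K) (k • v)
    rwa [h1] at this
  have h3 : (g'⁻¹ * k * g) • vr K v = vr K v := by
    rw [mul_smul, mul_smul, hg, vg_smul, inv_smul_eq_iff, h2]
  have h4 : (g'⁻¹ * k * g) * (g⁻¹ * a * g) = (g⁻¹ * a * g) * (g'⁻¹ * k * g) :=
    hab (vr K v) _ _ h3 (conj_mem_stab ha)
  have h5 : g'⁻¹ * (k * a * k⁻¹) * g' = (g'⁻¹ * k * g) * (g⁻¹ * a * g) * (g'⁻¹ * k * g)⁻¹ := by
    group
  rw [h5, h4]
  group

theorem chi_edge_lower (hgen : Subgroup.closure {k : K | ∃ v : V, k • v = v} = ⊤)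
    (u v : V) (a : K) (huv : T.Adj u v) (hu : a • u = u) (hv : a • v = v) {m : ℕ}
    (hhu : ht hT v₀ u = m) (hhv : ht hT v₀ v = m + 1) :
    chi hT v₀ ψ u a = chi hT v₀ ψ v a := by
  set g := vg K v with hg
  set r := vr K v with hr
  have hgr : g • r = v := vg_smul v
  have hr1 : ht hT v₀ r = m + 1 := by rw [hr, ht_vr, hhv]
  obtain ⟨h1, h2⟩ := par_spec hT hr1
  set w := par hT v₀ r with hw
  -- the lower neighbour `g⁻¹ • u` of `r`
  have h3 : T.Adj (g⁻¹ • u) r := by
    have := hT.adj g⁻¹ huv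
    rwa [← hgr, inv_smul_smul] at this
  obtain ⟨n, hn1, hn2⟩ := exists_fix hT hgen hr1 h2 (by rw [ht_smul, hhu]) h1 h3
  set a' := g⁻¹ * a * g with ha'
  have ha'r : a' • r = r := conj_mem_stab hv
  have ha'u : a' • g⁻¹ • u = g⁻¹ • u := by
    rw [ha', mul_smul, mul_smul, smul_inv_smul, hu]
  have hcomm : n * a' * n⁻¹ = a' := by
    rw [hab r n a' hn1 ha'r, mul_inv_cancel_right]
  have ha'w : a' • w = w := by
    have h5 : n⁻¹ • g⁻¹ • u = w := by rw [← hn2, inv_smul_smul]
    have h6 : a' * n⁻¹ = n⁻¹ * a' := by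
      rw [eq_inv_mul_iff_mul_eq, ← mul_assoc, hcomm]
    rw [← h5, smul_smul a', h6, mul_smul, ha'u]
  have h6 : chi hT v₀ ψ v a = psi hT v₀ ψ r a' := rfl
  have h7 : psi hT v₀ ψ r a' = chi hT v₀ ψ w a' :=
    (psi_spec hT hab hψ _ r (vr_vr v) rfl).2 m hr1 a' ⟨ha'r, ha'w⟩
  have h8 : chi hT v₀ ψ (n • w) (n * a' * n⁻¹) = chi hT v₀ ψ w a' := chi_conj hT hab w n a' ha'w
  rw [hn2, hcomm] at h8
  have h9 : chi hT v₀ ψ (g • g⁻¹ • u) (g * a' * g⁻¹) = chi hT v₀ ψ (g⁻¹ • u) a' :=
    chi_conj hT hab _ g a' ha'u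
  rw [smul_inv_smul] at h9
  have h10 : g * a' * g⁻¹ = a := by rw [ha']; group
  rw [h10] at h9
  rw [h9, h8, ← h7, h6]

omit hψ in
include hT in
/-- **Compatible characters.** -/
theorem exists_family (hgen : Subgroup.closure {k : K | ∃ v : V, k • v = v} = ⊤)
    (v₀ : V) (n : K) (hn : n • v₀ = v₀) (hn1 : n ≠ 1) :
    ∃ χ : V → K → AddCircle (1 : ℚ),
      (∀ v a b, a • v = v → b • v = v → χ v (a * b) = χ v a + χ v b) ∧
      (∀ v k a, a • v = v → χ (k • v) (k * a * k⁻¹) = χ v a) ∧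
      (∀ u v a, T.Adj u v → a • u = u → a • v = v → χ u a = χ v a) ∧
      χ v₀ n ≠ 0 := by
  have h1 : (vg K v₀)⁻¹ * n * vg K v₀ ≠ 1 := by
    intro h
    apply hn1
    have h2 : n = vg K v₀ * ((vg K v₀)⁻¹ * n * vg K v₀) * (vg K v₀)⁻¹ := by group
    rw [h2, h]
    group
  obtain ⟨ψ, hψ, hψn⟩ := exists_sep (MulAction.stabilizer K (vr K v₀))
    (fun a ha b hb => hab _ a b ha hb) _ (conj_mem_stab hn) h1
  refine ⟨chi hT v₀ ψ, chi_mul hT hab hψ, chi_conj hT hab, fun u v a huv hu hv => ?_, ?_⟩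
  · have h2 := ht_ne (v₀ := v₀) hT hgen huv
    have h3 := ht_adj (v₀ := v₀) hT huv
    have h4 := ht_adj (v₀ := v₀) hT huv.symm
    rcases Nat.lt_or_gt_of_ne h2 with h | h
    · exact chi_edge_lower hT hab hψ hgen u v a huv hu hv rfl (by omega)
    · exact (chi_edge_lower hT hab hψ hgen v u a huv.symm hv hu rfl (by omega)).symm
  · have h2 : psi hT v₀ ψ (vr K v₀) = ψ := by
      rw [psi, ht_vr, ht_base]
      rfl
    rw [chi, h2]
    exact hψn

end family

end Pool.Agent.T59
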