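import Pool.Agent.T59.Defs

/-!
# Potentials on trees, words of paths, and the embedding of `G ⧸ K₀`
-/

set_option autoImplicit false

namespace Pool.Agent.T59

open Pool.Agent.Helper29.BA Pool.Agent.Helper29.PA

/-! ### Potentials -/

section potential

variable {V H : Type} [Group H] {T : SimpleGraph V} (h : V → V → H)

/-- The product of the values of `h` along a walk. -/
def hol : ∀ {u v : V}, T.Walk u v → H
  | _, _, .nil => 1
  | _, _, .cons (u := u) (v := v) _ p => h u v * hol p

theorem hol_append : ∀ {u v w : V} (p : T.Walk u v) (q : T.Walk v w),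
    hol h (p.append q) = hol h p * hol h q
  | _, _, _, .nil, q => by simp [hol]
  | _, _, _, .cons _ p, q => by
    rw [SimpleGraph.Walk.cons_append, hol, hol, hol_append p q, mul_assoc]

theorem hol_concat {u v w : V} (p : T.Walk u v) (e : T.Adj v w) :
    hol h (p.concat e) = hol h p * h v w := by
  rw [SimpleGraph.Walk.concat_eq_append, hol_append]
  simp [hol]

/-- Functions on the edges of a tree have primitives. -/
theorem exists_potential (hT : T.IsTree) (hh : ∀ u v, T.Adj u v → h v u = (h u v)⁻¹) :
    ∃ W : V → H, ∀ u v, T.Adj u v → W v = W u * h u v := by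
  obtain ⟨v0⟩ := hT.connected.nonempty
  choose P hP using fun v => (hT.existsUnique_path v0 v).exists
  refine ⟨fun v => hol h (P v), fun u v huv => ?_⟩
  by_cases hv : v ∈ (P u).support
  · have h1 := hT.isAcyclic.path_concat (hP v) (hP u) huv.symm hv
    change hol h (P v) = hol h (P u) * h u v
    rw [h1, hol_concat, hh u v huv]
    group
  · have h2 := hT.isAcyclic.mem_support_of_ne_mem_support_of_adj_of_isPath (hP v) (hP u)
      huv.symm hv
    have h1 := hT.isAcyclic.path_concat (hP u) (hP v) huv h2
    change hol h (P v) = hol h (P u) * h u v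
    rw [h1, hol_concat]

end potential

/-! ### Words -/

section words

variable {G V : Type} [Group G] [MulAction G V] {T : SimpleGraph V}

/-- The primitive used for words: `W v = W u * y (u,v) * y (v,u)⁻¹` on the edges. -/
def IsWord (T : SimpleGraph V) (K : Subgroup G) (W : V → FreeGroup (PairOrb K V)) : Prop :=
  ∀ u v, T.Adj u v → W v = W u * (FreeGroup.of (pr K u v) * (FreeGroup.of (pr K v u))⁻¹)

theorem exists_word (hT : TreeAct G V T) (K : Subgroup G) :
    ∃ W : V → FreeGroup (PairOrb K V), IsWord T K W :=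
  exists_potential (fun u v => FreeGroup.of (pr K u v) * (FreeGroup.of (pr K v u))⁻¹) hT.tree
    (fun u v _ => by group)

/-- The list of letters of a path. -/
def letters (K : Subgroup G) (p : ℕ → V) : ℕ → List (PairOrb K V × Bool)
  | 0 => []
  | n + 1 => letters K p n ++ [(pr K (p n) (p (n + 1)), true), (pr K (p (n + 1)) (p n), false)]

theorem mk_letters (K : Subgroup G) {W : V → FreeGroup (PairOrb K V)} (hW : IsWord T K W)
    (p : ℕ → V) : ∀ n : ℕ, (∀ i < n, T.Adj (p i) (p (i + 1))) →
      W (p n) = W (p 0) * FreeGroup.mk (letters K p n)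
  | 0, _ => by simp [letters, ← FreeGroup.one_eq_mk]
  | n + 1, hp => by
    rw [hW _ _ (hp n (Nat.lt_succ_self n)), mk_letters K hW p n (fun i hi => hp i (by omega)),
      letters, ← FreeGroup.mul_mk, mul_assoc]
    congr 2

theorem getLast_letters (K : Subgroup G) (p : ℕ → V) (n : ℕ) :
    (letters K p (n + 1)).getLast? = some (pr K (p (n + 1)) (p n), false) := by
  rw [letters, List.getLast?_append]
  simp

theorem letters_reduced (hT : TreeAct G V T) (K : Subgroup G) (p : ℕ → V) :
    ∀ n : ℕ, (∀ i < n, T.Adj (p i) (p (i + 1))) →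
      (∀ i, i + 1 < n → pr K (p (i + 1)) (p i) ≠ pr K (p (i + 1)) (p (i + 2))) →
      FreeGroup.IsReduced (letters K p n)
  | 0, _, _ => FreeGroup.IsReduced.nil
  | n + 1, hp, hb => by
    rw [letters, FreeGroup.IsReduced, List.isChain_append]
    refine ⟨letters_reduced hT K p n (fun i hi => hp i (by omega)) (fun i hi => hb i (by omega)),
      ?_, ?_⟩
    · change FreeGroup.IsReduced _
      rw [FreeGroup.isReduced_cons_cons]
      refine ⟨fun h => ?_, FreeGroup.IsReduced.singleton⟩
      obtain ⟨k, _, h1, h2⟩ := pr_eq_iff.1 h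
      exact absurd h2 (hT.noinv k (hp n (Nat.lt_succ_self n)) h1)
    · intro x hx y hy h
      simp only [List.head?_cons, Option.mem_def, Option.some.injEq] at hy
      subst hy
      cases n with
      | zero => simp [letters] at hx
      | succ m =>
        rw [getLast_letters] at hx
        simp only [Option.mem_def, Option.some.injEq] at hx
        subst hx
        exact absurd h (hb m (by omega))

/-- Paths without backtracking modulo `K` have nontrivial words. -/
theorem word_ne (hT : TreeAct G V T)
    (K : Subgroup G) {W : V → FreeGroup (PairOrb K V)} (hW : IsWord T K W)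
    (p : ℕ → V) (n : ℕ) (hn : 0 < n) (hp : ∀ i < n, T.Adj (p i) (p (i + 1)))
    (hb : ∀ i, i + 1 < n → pr K (p (i + 1)) (p i) ≠ pr K (p (i + 1)) (p (i + 2))) :
    W (p n) ≠ W (p 0) := by
  intro h
  rw [mk_letters K hW p n hp, mul_eq_left] at h
  have h1 := letters_reduced hT K p n hp hb
  have h2 : FreeGroup.Red (letters K p n) [] := by
    rw [FreeGroup.one_eq_mk] at h
    obtain ⟨L, h3, h4⟩ := FreeGroup.Red.exact.1 h
    rw [FreeGroup.Red.nil_iff] at h4
    rwa [h4] at h3
  rw [h1.red_iff_eq] at h2
  obtain ⟨m, rfl⟩ := Nat.exists_eq_succ_of_ne_zero hn.ne'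
  rw [letters] at h2
  simp at h2

/-- The word of the path from `u` to `v` is equivariant. -/
theorem word_smul (hT : TreeAct G V T)
    (K : Subgroup G) [K.Normal] {W : V → FreeGroup (PairOrb K V)} (hW : IsWord T K W)
    (g : G) (u v : V) :
    (W (g • u))⁻¹ * W (g • v) = frAct (G ⧸ K) (PairOrb K V) (g : G ⧸ K) ((W u)⁻¹ * W v) := by
  obtain ⟨p⟩ := hT.tree.connected u v
  induction p with
  | nil => simp
  | @cons a b c hab p ih =>
    have h1 : (W (g • a))⁻¹ * W (g • b) =
        frAct (G ⧸ K) (PairOrb K V) (g : G ⧸ K) ((W a)⁻¹ * W b) := by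
      rw [hW _ _ hab, hW _ _ (hT.adj g hab), inv_mul_cancel_left, inv_mul_cancel_left, map_mul,
        map_inv, frAct_of, frAct_of, mk_smul_pr, mk_smul_pr]
    have h2 : (W a)⁻¹ * W c = ((W a)⁻¹ * W b) * ((W b)⁻¹ * W c) := by group
    rw [h2, map_mul, ← h1, ← ih]
    group

/-- The elements of `K` with fixed points. -/
def fixSet (K : Subgroup G) (V : Type) [MulAction G V] : Set G :=
  {k : G | k ∈ K ∧ ∃ v : V, k • v = v}

theorem word_fix (hT : TreeAct G V T) (K : Subgroup G) [K.Normal]
    {W : V → FreeGroup (PairOrb K V)} (hW : IsWord T K W) (k : G)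
    (hk : k ∈ Subgroup.closure (fixSet K V)) : ∀ v : V, W (k • v) = W v := by
  induction hk using Subgroup.closure_induction with
  | mem k hk =>
    intro v
    obtain ⟨hk, u, hu⟩ := hk
    have h1 := word_smul hT K hW k u v
    have h2 : (k : G ⧸ K) = 1 := (QuotientGroup.eq_one_iff k).2 hk
    rw [h2, map_one, hu] at h1
    exact mul_left_cancel h1
  | one => intro v; rw [one_smul]
  | mul a b _ _ ha hb => intro v; rw [mul_smul, ha, hb]
  | inv a _ ha => intro v; rw [← ha (a⁻¹ • v), smul_inv_smul]

theorem fix_le (K : Subgroup G) : Subgroup.closure (fixSet K V) ≤ K :=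
  (Subgroup.closure_le _).2 fun _ hx => hx.1

theorem exists_of_word_eq (hT : TreeAct G V T) (K : Subgroup G) [K.Normal]
    {W : V → FreeGroup (PairOrb K V)} (hW : IsWord T K W) (n : ℕ) :
    ∀ p : ℕ → V, (∀ i < n, T.Adj (p i) (p (i + 1))) → W (p n) = W (p 0) →
      ∃ k ∈ Subgroup.closure (fixSet K V), k • p 0 = p n := by
  induction n using Nat.strong_induction_on with
  | _ n ih =>
    intro p hp hw
    rcases Nat.eq_zero_or_pos n with rfl | hn
    · exact ⟨1, one_mem _, one_smul _ _⟩
    · by_cases hb : ∀ i, i + 1 < n → pr K (p (i + 1)) (p i) ≠ pr K (p (i + 1)) (p (i + 2))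
      · exact absurd hw (word_ne hT K hW p n hn hp hb)
      · push Not at hb
        obtain ⟨i, hi, hb⟩ := hb
        obtain ⟨k, hk, h1, h2⟩ := pr_eq_iff.1 hb
        have hk0 : k⁻¹ ∈ Subgroup.closure (fixSet K V) :=
          inv_mem (Subgroup.subset_closure ⟨hk, _, h1⟩)
        have h2' : k⁻¹ • p (i + 2) = p i := by rw [← h2, inv_smul_smul]
        let q : ℕ → V := fun j => if j ≤ i then p j else k⁻¹ • p (j + 2)
        have hq0 : q 0 = p 0 := if_pos (Nat.zero_le i)
        have hqn : q (n - 2) = k⁻¹ • p n := by
          by_cases hin : n - 2 ≤ i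
          · have : n = i + 2 := by omega
            subst this
            change (if i + 2 - 2 ≤ i then p (i + 2 - 2) else k⁻¹ • p (i + 2 - 2 + 2)) = _
            rw [if_pos hin, h2']
            rfl
          · change (if n - 2 ≤ i then p (n - 2) else k⁻¹ • p (n - 2 + 2)) = _
            rw [if_neg hin]
            congr 2
            omega
        obtain ⟨l, hl, hl'⟩ := ih (n - 2) (by omega) q (by
          intro j hj
          by_cases h3 : j + 1 ≤ i
          · change T.Adj (if j ≤ i then p j else k⁻¹ • p (j + 2))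
              (if j + 1 ≤ i then p (j + 1) else k⁻¹ • p (j + 1 + 2))
            rw [if_pos (by omega), if_pos h3]
            exact hp j (by omega)
          · by_cases h4 : j ≤ i
            · have h5 : j = i := by omega
              subst h5
              change T.Adj (if j ≤ j then p j else k⁻¹ • p (j + 2))
                (if j + 1 ≤ j then p (j + 1) else k⁻¹ • p (j + 1 + 2))
              rw [if_pos le_rfl, if_neg (by omega), ← h2']
              exact hT.adj _ (hp (j + 2) (by omega))
            · change T.Adj (if j ≤ i then p j else k⁻¹ • p (j + 2))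
                (if j + 1 ≤ i then p (j + 1) else k⁻¹ • p (j + 1 + 2))
              rw [if_neg h4, if_neg h3]
              exact hT.adj _ (hp (j + 2) (by omega))) (by
          rw [hq0, hqn, word_fix hT K hW _ hk0, hw])
        refine ⟨k * l, mul_mem (by simpa using inv_mem hk0) hl, ?_⟩
        rw [mul_smul, ← hq0, hl', hqn, smul_inv_smul]

/-- The elements of `K` which fix the word are products of elements of `K` with fixed points. -/
theorem word_kernel (hT : TreeAct G V T) (K : Subgroup G) [K.Normal]
    {W : V → FreeGroup (PairOrb K V)} (hW : IsWord T K W) (k : G) (hk : k ∈ K) (v : V) :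
    W (k • v) = W v ↔ k ∈ Subgroup.closure (fixSet K V) := by
  constructor
  · intro h
    obtain ⟨p⟩ := hT.tree.connected v (k • v)
    obtain ⟨l, hl, hl'⟩ := exists_of_word_eq hT K hW p.length p.getVert
      (fun i hi => p.adj_getVert_succ hi) (by rw [p.getVert_length, p.getVert_zero, h])
    rw [p.getVert_length, p.getVert_zero] at hl'
    have h1 : l⁻¹ * k ∈ Subgroup.closure (fixSet K V) :=
      Subgroup.subset_closure ⟨mul_mem (inv_mem (fix_le K hl)) hk, v, by
        rw [mul_smul, ← hl', inv_smul_smul]⟩
    simpa using mul_mem hl h1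
  · intro h
    exact word_fix hT K hW k h v

/-- The homomorphism to `FreeGroup Y ⋊ (G ⧸ K)`. -/
noncomputable def toFQ (hT : TreeAct G V T) (K : Subgroup G) [K.Normal]
    {W : V → FreeGroup (PairOrb K V)} (hW : IsWord T K W) (v : V) :
    G →* FQ (G ⧸ K) (PairOrb K V) where
  toFun g := ⟨(W v)⁻¹ * W (g • v), (g : G ⧸ K)⟩
  map_one' := by
    ext
    · simp
    · rfl
  map_mul' a b := by
    ext
    · rw [SemidirectProduct.mul_left, ← word_smul hT K hW a v (b • v), mul_smul]
      group
    · rfl

/-- **Theorem B.** -/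
theorem mem_quot_closure {C : ∀ (G : Type) [Group G], Prop} (hC : ExtClass C)
    (hT : TreeAct G V T) (K : Subgroup G)
    [K.Normal] (K0 : Subgroup G) [K0.Normal]
    (hK0 : K0 = Subgroup.closure {k : G | k ∈ K ∧ ∃ v : V, k • v = v}) (hQ : C (G ⧸ K)) :
    C (G ⧸ K0) := by
  obtain ⟨W, hW⟩ := exists_word hT K
  obtain ⟨v⟩ := hT.tree.connected.nonempty
  have hker : ∀ g : G, toFQ hT K hW v g = 1 ↔ g ∈ K0 := by
    intro g
    rw [hK0]
    constructor
    · intro h
      have h1 : (W v)⁻¹ * W (g • v) = 1 := congrArg SemidirectProduct.left h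
      have h2 : (g : G ⧸ K) = 1 := congrArg SemidirectProduct.right h
      exact (word_kernel hT K hW g ((QuotientGroup.eq_one_iff g).1 h2) v).1
        (inv_mul_eq_one.1 h1).symm
    · intro h
      have h3 : g ∈ K := fix_le K h
      apply SemidirectProduct.ext
      · change (W v)⁻¹ * W (g • v) = 1
        rw [(word_kernel hT K hW g h3 v).2 h, inv_mul_cancel]
      · exact (QuotientGroup.eq_one_iff g).2 h3
  refine hC.toClosedClass.inj (QuotientGroup.lift K0 (toFQ hT K hW v) fun g hg => (hker g).2 hg)
    ?_ (hC.freeExt (G ⧸ K) (PairOrb K V) hQ)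
  rw [injective_iff_map_eq_one]
  intro x
  induction x using QuotientGroup.induction_on with
  | H g =>
    intro hg
    exact (QuotientGroup.eq_one_iff g).2 ((hker g).1 hg)

end words

end Pool.Agent.T59
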