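import Pool.Agent.T59.A

/-!
# Characters of the vertex stabilisers

Compatible characters of the vertex stabilisers of a group acting on a tree are the restrictions
of a character of the group.
-/

set_option autoImplicit false

namespace Pool.Agent.T59

section character

variable {K V A : Type} [Group K] [AddCommGroup A] [MulAction K V]

/-- The representative of the orbit of a vertex. -/
noncomputable def vr (K : Type) [Group K] [MulAction K V] (v : V) : V :=
  (Quotient.mk (MulAction.orbitRel K V) v).out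

theorem vr_smul (k : K) (v : V) : vr K (k • v) = vr K v := by
  have : (Quotient.mk (MulAction.orbitRel K V) (k • v)) = Quotient.mk (MulAction.orbitRel K V) v :=
    Quotient.sound (s := MulAction.orbitRel K V) ⟨k, rfl⟩
  rw [vr, vr, this]

theorem exists_vg (v : V) : ∃ k : K, k • vr K v = v := by
  have h : (MulAction.orbitRel K V) (vr K v) v :=
    Quotient.mk_out (s := MulAction.orbitRel K V) v
  obtain ⟨k, hk⟩ := (MulAction.orbitRel K V).symm h
  exact ⟨k, hk⟩

/-- An element which maps the representative to the vertex. -/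
noncomputable def vg (K : Type) [Group K] [MulAction K V] (v : V) : K :=
  (exists_vg (K := K) v).choose

theorem vg_smul (v : V) : vg K v • vr K v = v := (exists_vg (K := K) v).choose_spec

/-- The element of the stabiliser of the representative. -/
noncomputable def ve (k : K) (v : V) : K := (vg K v)⁻¹ * k * vg K (k⁻¹ • v)

theorem ve_smul (k : K) (v : V) : ve k v • vr K v = vr K v := by
  have h1 : vg K (k⁻¹ • v) • vr K v = k⁻¹ • v := by
    have := vg_smul (K := K) (k⁻¹ • v)
    rwa [vr_smul] at this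
  rw [ve, mul_smul, mul_smul, h1, smul_inv_smul, inv_smul_eq_iff, vg_smul]

theorem ve_mul (k l : K) (v : V) : ve (k * l) v = ve k v * ve l (k⁻¹ • v) := by
  rw [ve, ve, ve, mul_inv_rev, mul_smul]
  group

variable (χ : V → K → A)

/-- The cocycle. -/
noncomputable def cc (k : K) (v : V) : A := χ (vr K v) (ve k v)

variable {χ}

theorem cc_mul (hmul : ∀ v a b, a • v = v → b • v = v → χ v (a * b) = χ v a + χ v b)
    (k l : K) (v : V) : cc χ (k * l) v = cc χ k v + cc χ l (k⁻¹ • v) := by
  rw [cc, ve_mul, hmul _ _ _ (ve_smul k v)]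
  · rw [cc, cc, vr_smul]
  · have := ve_smul l (k⁻¹ • v)
    rwa [vr_smul] at this

omit [AddCommGroup A] in
theorem cc_fix (hconj : ∀ v k a, a • v = v → χ (k • v) (k * a * k⁻¹) = χ v a)
    (n : K) (v : V) (hn : n • v = v) : cc χ n v = χ v n := by
  have h1 : n⁻¹ • v = v := by rw [inv_smul_eq_iff, hn]
  have h2 := hconj (vr K v) (vg K v) (ve n v) (ve_smul n v)
  rw [vg_smul, ve, h1] at h2
  rw [cc, ve, h1, ← h2]
  congr 1
  group

/-- **Compatible characters of the vertex stabilisers extend.** -/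
theorem exists_character {T : SimpleGraph V} (hT : TreeAct K V T) (χ : V → K → A)
    (hmul : ∀ v a b, a • v = v → b • v = v → χ v (a * b) = χ v a + χ v b)
    (hconj : ∀ v k a, a • v = v → χ (k • v) (k * a * k⁻¹) = χ v a)
    (hedge : ∀ u v a, T.Adj u v → a • u = u → a • v = v → χ u a = χ v a) :
    ∃ φ : K →* Multiplicative A, ∀ v a, a • v = v → φ a = Multiplicative.ofAdd (χ v a) := by
  classical
  -- the differences on the edges
  let d : K → V → V → A := fun k u v => cc χ k v - cc χ k u
  have hd : ∀ k l u v, d (k * l) u v = d k u v + d l (k⁻¹ • u) (k⁻¹ • v) := by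
    intro k l u v
    change cc χ (k * l) v - cc χ (k * l) u = (cc χ k v - cc χ k u) +
      (cc χ l (k⁻¹ • v) - cc χ l (k⁻¹ • u))
    rw [cc_mul hmul, cc_mul hmul]
    abel
  have hd0 : ∀ n u v, T.Adj u v → n • u = u → n • v = v → d n u v = 0 := by
    intro n u v huv hu hv
    change cc χ n v - cc χ n u = 0
    rw [cc_fix hconj n v hv, cc_fix hconj n u hu, hedge u v n huv hu hv, sub_self]
  -- representatives of the orbits of pairs
  let rp : V → V → V × V := fun u v => (pr (⊤ : Subgroup K) u v).out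
  have hrp : ∀ u v, ∃ k : K, k • (rp u v).1 = u ∧ k • (rp u v).2 = v := by
    intro u v
    have h : (pairSetoid (⊤ : Subgroup K) V) (rp u v) (u, v) :=
      Quotient.mk_out (s := pairSetoid (⊤ : Subgroup K) V) (u, v)
    obtain ⟨k, -, h1, h2⟩ := h
    exact ⟨k, h1, h2⟩
  choose γ hγ1 hγ2 using hrp
  have hrp' : ∀ (k : K) u v, rp (k • u) (k • v) = rp u v := by
    intro k u v
    change (pr (⊤ : Subgroup K) (k • u) (k • v)).out = (pr (⊤ : Subgroup K) u v).out
    rw [pr_smul (Subgroup.mem_top k)]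
  let f : V → V → A := fun u v => d (γ u v) u v
  have hf : ∀ k u v, T.Adj u v → f u v - f (k⁻¹ • u) (k⁻¹ • v) = d k u v := by
    intro k u v huv
    set s : K := (γ u v)⁻¹ * (k * γ (k⁻¹ • u) (k⁻¹ • v)) with hs
    have h1 : γ (k⁻¹ • u) (k⁻¹ • v) • (rp u v).1 = k⁻¹ • u := by
      have := hγ1 (k⁻¹ • u) (k⁻¹ • v)
      rwa [hrp'] at this
    have h2 : γ (k⁻¹ • u) (k⁻¹ • v) • (rp u v).2 = k⁻¹ • v := by
      have := hγ2 (k⁻¹ • u) (k⁻¹ • v)
      rwa [hrp'] at this
    have hu : (γ u v)⁻¹ • u = (rp u v).1 := by rw [inv_smul_eq_iff, hγ1]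
    have hv : (γ u v)⁻¹ • v = (rp u v).2 := by rw [inv_smul_eq_iff, hγ2]
    have hs1 : s • (rp u v).1 = (rp u v).1 := by
      rw [hs, mul_smul, mul_smul, h1, smul_inv_smul, hu]
    have hs2 : s • (rp u v).2 = (rp u v).2 := by
      rw [hs, mul_smul, mul_smul, h2, smul_inv_smul, hv]
    have hadj : T.Adj (rp u v).1 (rp u v).2 := by
      rw [← hu, ← hv]
      exact hT.adj _ huv
    have h3 : d (γ u v * s) u v = d (γ u v) u v := by
      rw [hd, hu, hv, hd0 s _ _ hadj hs1 hs2, add_zero]
    have h4 : γ u v * s = k * γ (k⁻¹ • u) (k⁻¹ • v) := by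
      rw [hs, mul_inv_cancel_left]
    rw [h4, hd] at h3
    change d (γ u v) u v - d (γ (k⁻¹ • u) (k⁻¹ • v)) (k⁻¹ • u) (k⁻¹ • v) = d k u v
    rw [← h3]
    abel
  -- an orientation
  let f' : V → V → A := fun u v =>
    if WellOrderingRel (pr (⊤ : Subgroup K) u v) (pr (⊤ : Subgroup K) v u) then f u v else - f v u
  have hne : ∀ u v, T.Adj u v → pr (⊤ : Subgroup K) u v ≠ pr (⊤ : Subgroup K) v u := by
    intro u v huv h
    obtain ⟨k, -, h1, h2⟩ := pr_eq_iff.1 h
    exact hT.noinv k huv h1 h2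
  have hf'anti : ∀ u v, T.Adj u v → f' v u = - f' u v := by
    intro u v huv
    change (if WellOrderingRel (pr (⊤ : Subgroup K) v u) (pr (⊤ : Subgroup K) u v) then f v u
      else - f u v) = - (if WellOrderingRel (pr (⊤ : Subgroup K) u v) (pr (⊤ : Subgroup K) v u)
      then f u v else - f v u)
    rcases trichotomous_of WellOrderingRel (pr (⊤ : Subgroup K) u v) (pr (⊤ : Subgroup K) v u) with
      h | h | h
    · rw [if_pos h, if_neg (asymm_of WellOrderingRel h)]
    · exact absurd h (hne u v huv)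
    · rw [if_pos h, if_neg (asymm_of WellOrderingRel h), neg_neg]
  have hf' : ∀ k u v, T.Adj u v → f' u v - f' (k⁻¹ • u) (k⁻¹ • v) = d k u v := by
    intro k u v huv
    change (if WellOrderingRel (pr (⊤ : Subgroup K) u v) (pr (⊤ : Subgroup K) v u) then f u v
      else - f v u) - (if WellOrderingRel (pr (⊤ : Subgroup K) (k⁻¹ • u) (k⁻¹ • v))
      (pr (⊤ : Subgroup K) (k⁻¹ • v) (k⁻¹ • u)) then f (k⁻¹ • u) (k⁻¹ • v)
      else - f (k⁻¹ • v) (k⁻¹ • u)) = d k u v
    rw [pr_smul (Subgroup.mem_top _), pr_smul (Subgroup.mem_top _)]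
    split_ifs
    · exact hf k u v huv
    · have h1 := hf k v u huv.symm
      have h2 : d k u v = - d k v u := by
        change cc χ k v - cc χ k u = - (cc χ k u - cc χ k v)
        abel
      rw [h2, ← h1]
      abel
  obtain ⟨W, hW⟩ := exists_potential (H := Multiplicative A)
    (fun u v => Multiplicative.ofAdd (f' u v)) hT.tree (fun u v huv => by
      rw [hf'anti u v huv, ofAdd_neg])
  let F : V → A := fun v => Multiplicative.toAdd (W v)
  have hF : ∀ u v, T.Adj u v → F v = F u + f' u v := by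
    intro u v huv
    change Multiplicative.toAdd (W v) = _
    rw [hW u v huv, toAdd_mul, toAdd_ofAdd]
  let E : K → V → A := fun k v => cc χ k v + F (k⁻¹ • v) - F v
  have hE : ∀ k u v, E k u = E k v := by
    intro k u v
    obtain ⟨p⟩ := hT.tree.connected u v
    induction p with
    | nil => rfl
    | @cons a b c hab p ih =>
      rw [← ih]
      have h1 := hF a b hab
      have h2 := hF _ _ (hT.adj k⁻¹ hab)
      have h3 : cc χ k b - cc χ k a = f' a b - f' (k⁻¹ • a) (k⁻¹ • b) := (hf' k a b hab).symm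
      change cc χ k a + F (k⁻¹ • a) - F a = cc χ k b + F (k⁻¹ • b) - F b
      rw [h1, h2, ← sub_eq_zero]
      have h4 : cc χ k b = cc χ k a + (f' a b - f' (k⁻¹ • a) (k⁻¹ • b)) := by
        rw [← h3]
        abel
      rw [h4]
      abel
  obtain ⟨v0⟩ := hT.tree.connected.nonempty
  have hEmul : ∀ k l, E (k * l) v0 = E k v0 + E l v0 := by
    intro k l
    rw [hE l v0 (k⁻¹ • v0)]
    change cc χ (k * l) v0 + F ((k * l)⁻¹ • v0) - F v0 = (cc χ k v0 + F (k⁻¹ • v0) - F v0) +
      (cc χ l (k⁻¹ • v0) + F (l⁻¹ • k⁻¹ • v0) - F (k⁻¹ • v0))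
    rw [cc_mul hmul, mul_inv_rev, mul_smul]
    abel
  refine ⟨MonoidHom.mk' (fun k => Multiplicative.ofAdd (E k v0)) fun k l => ?_, fun v a ha => ?_⟩
  · rw [hEmul, ofAdd_add]
  · change Multiplicative.ofAdd (E a v0) = _
    rw [hE a v0 v]
    change Multiplicative.ofAdd (cc χ a v + F (a⁻¹ • v) - F v) = _
    have h1 : a⁻¹ • v = v := by rw [inv_smul_eq_iff, ha]
    rw [cc_fix hconj a v ha, h1, add_sub_cancel_right]

end character

end Pool.Agent.T59
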