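import Pool.Agent.Helper29.PA.FrAct
import Pool.Agent.Helper78.PA.FreeExt

/-!
# Groups acting on trees: definitions
-/

set_option autoImplicit false

namespace Pool.Agent.T59

open Pool.Agent.Helper29.BA Pool.Agent.Helper29.PA

/-- Every group with an abelian normal subgroup and cyclic quotient is in the class. -/
def HasAbCyclic (C : ∀ (G : Type) [Group G], Prop) : Prop :=
  ∀ (G : Type) [Group G] (A : Subgroup G) [A.Normal], (∀ a ∈ A, ∀ b ∈ A, a * b = b * a) →
    IsCyclic (G ⧸ A) → C G

/-- `G` acts on the tree `T` by automorphisms without inversions. -/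
structure TreeAct (G V : Type) [Group G] [MulAction G V] (T : SimpleGraph V) : Prop where
  tree : T.IsTree
  adj : ∀ (g : G) {u v : V}, T.Adj u v → T.Adj (g • u) (g • v)
  noinv : ∀ (g : G) {u v : V}, T.Adj u v → g • u = v → g • v ≠ u

section pairs

variable {G : Type} [Group G] (K : Subgroup G) (V : Type) [MulAction G V]

/-- Pairs of vertices modulo `K`. -/
def pairSetoid : Setoid (V × V) where
  r a b := ∃ k ∈ K, k • a.1 = b.1 ∧ k • a.2 = b.2
  iseqv :=
    { refl := fun a => ⟨1, one_mem _, by simp, by simp⟩
      symm := by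
        rintro a b ⟨k, hk, h1, h2⟩
        exact ⟨k⁻¹, inv_mem hk, by rw [← h1, inv_smul_smul], by rw [← h2, inv_smul_smul]⟩
      trans := by
        rintro a b c ⟨k, hk, h1, h2⟩ ⟨l, hl, h3, h4⟩
        exact ⟨l * k, mul_mem hl hk, by rw [mul_smul, h1, h3], by rw [mul_smul, h2, h4]⟩ }

/-- The set of the `K`-orbits of pairs of vertices. -/
def PairOrb : Type := Quotient (pairSetoid K V)

variable {V}

/-- The orbit of a pair. -/
def pr (u v : V) : PairOrb K V := Quotient.mk (pairSetoid K V) (u, v)

variable {K}

theorem pr_eq_iff {u v u' v' : V} :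
    pr K u v = pr K u' v' ↔ ∃ k ∈ K, k • u = u' ∧ k • v = v' := by
  constructor
  · intro h
    exact Quotient.exact (s := pairSetoid K V) h
  · intro h
    exact Quotient.sound (s := pairSetoid K V) h

theorem pr_smul {k : G} (hk : k ∈ K) (u v : V) : pr K (k • u) (k • v) = pr K u v :=
  (pr_eq_iff.2 ⟨k, hk, rfl, rfl⟩).symm

theorem PairOrb.ind {P : PairOrb K V → Prop} (h : ∀ u v, P (pr K u v)) (y : PairOrb K V) : P y :=
  Quotient.ind (fun p => h p.1 p.2) y

/-- `G` acts on the orbits of the normal subgroup `K`. -/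
def actG [K.Normal] : G →* Equiv.Perm (PairOrb K V) where
  toFun g :=
    { toFun := Quotient.map (fun p => (g • p.1, g • p.2)) (by
        rintro a b ⟨k, hk, h1, h2⟩
        refine ⟨g * k * g⁻¹, Subgroup.Normal.conj_mem ‹_› k hk g, ?_, ?_⟩
        · simp [mul_smul, h1]
        · simp [mul_smul, h2])
      invFun := Quotient.map (fun p => (g⁻¹ • p.1, g⁻¹ • p.2)) (by
        rintro a b ⟨k, hk, h1, h2⟩
        refine ⟨g⁻¹ * k * g⁻¹⁻¹, Subgroup.Normal.conj_mem ‹_› k hk g⁻¹, ?_, ?_⟩
        · simp [mul_smul, h1]
        · simp [mul_smul, h2])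
      left_inv := fun y => by
        induction y using PairOrb.ind with
        | h u v =>
          change pr K (g⁻¹ • g • u) (g⁻¹ • g • v) = pr K u v
          rw [inv_smul_smul, inv_smul_smul]
      right_inv := fun y => by
        induction y using PairOrb.ind with
        | h u v =>
          change pr K (g • g⁻¹ • u) (g • g⁻¹ • v) = pr K u v
          rw [smul_inv_smul, smul_inv_smul] }
  map_one' := by
    ext y
    induction y using PairOrb.ind with
    | h u v =>
      change pr K ((1 : G) • u) ((1 : G) • v) = pr K u v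
      rw [one_smul, one_smul]
  map_mul' a b := by
    ext y
    induction y using PairOrb.ind with
    | h u v =>
      change pr K ((a * b) • u) ((a * b) • v) = pr K (a • b • u) (a • b • v)
      rw [mul_smul, mul_smul]

/-- `G ⧸ K` acts on the orbits of `K`. -/
def actQ [K.Normal] : G ⧸ K →* Equiv.Perm (PairOrb K V) :=
  QuotientGroup.lift K actG (by
    intro k hk
    ext y
    induction y using PairOrb.ind with
    | h u v => exact pr_smul hk u v)

instance [K.Normal] : MulAction (G ⧸ K) (PairOrb K V) :=
  MulAction.compHom _ (actQ (K := K) (V := V))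

theorem mk_smul_pr [K.Normal] (g : G) (u v : V) :
    ((g : G ⧸ K) • pr K u v : PairOrb K V) = pr K (g • u) (g • v) := rfl

end pairs

end Pool.Agent.T59
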