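import Pool.Agent.T59.D

/-!
# Compatible characters modulo a compatible family of normal subgroups

`K` acts on a tree and is generated by its vertex stabilisers, `S v` are subgroups of the
stabilisers `K v` with abelian quotients, compatible with the action and along the edges. For
every `n` in `K v₀` which is not in `S v₀` there are compatible characters of the groups `K v`
which are trivial on the groups `S v` and not trivial at `n`.
-/

set_option autoImplicit false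

namespace Pool.Agent.T59

open SimpleGraph

section ext

variable {K : Type} [Group K] (P N : Subgroup K) (hN : N ≤ P)
  (hcomm : ∀ a ∈ P, ∀ b ∈ P, a * b * a⁻¹ * b⁻¹ ∈ N)

include hcomm in
theorem subgroupOf_normal : (N.subgroupOf P).Normal := by
  refine ⟨fun n hn g => ?_⟩
  rw [Subgroup.mem_subgroupOf] at hn ⊢
  have h1 := hcomm g g.2 n n.2
  have h2 : ((g * n * g⁻¹ : P) : K) = ((g : K) * n * (g : K)⁻¹ * (n : K)⁻¹) * n := by
    push_cast
    group
  rw [h2]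
  exact mul_mem h1 hn

include hcomm in
theorem quot_comm [(N.subgroupOf P).Normal] (x y : P ⧸ N.subgroupOf P) : x * y = y * x := by
  induction x using QuotientGroup.induction_on with
  | H a =>
    induction y using QuotientGroup.induction_on with
    | H b =>
      rw [← QuotientGroup.mk_mul, ← QuotientGroup.mk_mul, QuotientGroup.eq,
        Subgroup.mem_subgroupOf]
      have h1 := hcomm _ (inv_mem b.2) _ (inv_mem a.2)
      have h2 : (((a * b)⁻¹ * (b * a) : P) : K) =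
          (b : K)⁻¹ * (a : K)⁻¹ * ((b : K)⁻¹)⁻¹ * ((a : K)⁻¹)⁻¹ := by
        push_cast
        group
      rw [h2]
      exact h1

include hN hcomm in
/-- Characters extend, trivially on `N`. -/
theorem exists_ext' (S' : Subgroup K) (hle : S' ≤ P)
    (f : K → AddCircle (1 : ℚ)) (hf : ∀ a ∈ S', ∀ b ∈ S', f (a * b) = f a + f b)
    (hf0 : ∀ a ∈ S', a ∈ N → f a = 0) :
    ∃ ψ : K → AddCircle (1 : ℚ), (∀ a ∈ P, ∀ b ∈ P, ψ (a * b) = ψ a + ψ b) ∧
      (∀ a ∈ N, ψ a = 0) ∧ ∀ a ∈ S', ψ a = f a := by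
  classical
  have hnorm := subgroupOf_normal P N hcomm
  have hf1 : f 1 = 0 := by
    have := hf 1 (one_mem _) 1 (one_mem _)
    rw [mul_one] at this
    exact left_eq_add.1 this
  have hfinv : ∀ a ∈ S', f a⁻¹ = - f a := by
    intro a ha
    have := hf a ha a⁻¹ (inv_mem ha)
    rw [mul_inv_cancel, hf1] at this
    exact (neg_eq_of_add_eq_zero_right this.symm).symm
  let H : Subgroup (P ⧸ N.subgroupOf P) :=
    (S'.subgroupOf P).map (QuotientGroup.mk' (N.subgroupOf P))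
  let F : (P ⧸ N.subgroupOf P) → AddCircle (1 : ℚ) := fun b =>
    if h : ∃ s : P, (s : K) ∈ S' ∧ (s : P ⧸ N.subgroupOf P) = b then f h.choose else 0
  have hF : ∀ s : P, (s : K) ∈ S' → F (s : P ⧸ N.subgroupOf P) = f s := by
    intro s hs
    have h : ∃ t : P, (t : K) ∈ S' ∧ (t : P ⧸ N.subgroupOf P) = (s : P ⧸ N.subgroupOf P) :=
      ⟨s, hs, rfl⟩
    change (if h : ∃ t : P, (t : K) ∈ S' ∧ (t : P ⧸ N.subgroupOf P) =
      (s : P ⧸ N.subgroupOf P) then f h.choose else 0) = f s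
    rw [dif_pos h]
    obtain ⟨h1, h2⟩ := h.choose_spec
    rw [QuotientGroup.eq, Subgroup.mem_subgroupOf] at h2
    have h3 : f ((h.choose : K)⁻¹ * s) = 0 := hf0 _ (mul_mem (inv_mem h1) hs) h2
    rw [hf _ (inv_mem h1) _ hs, hfinv _ h1] at h3
    exact neg_add_eq_zero.1 h3
  obtain ⟨ψ, h1, h2⟩ := exists_ext (K := P ⧸ N.subgroupOf P) ⊤ H
    (fun a _ b _ => quot_comm P N hcomm a b) le_top F (by
      rintro _ ⟨a, ha, rfl⟩ _ ⟨b, hb, rfl⟩
      have ha' : (a : K) ∈ S' := ha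
      have hb' : (b : K) ∈ S' := hb
      rw [← map_mul]
      change F ((a * b : P) : P ⧸ N.subgroupOf P) = F (a : P ⧸ N.subgroupOf P) +
        F (b : P ⧸ N.subgroupOf P)
      rw [hF _ ha', hF _ hb', hF _ (by exact mul_mem ha' hb')]
      exact hf _ ha' _ hb')
  have h10 : ψ 1 = 0 := by
    have := h1 1 trivial 1 trivial
    rw [mul_one] at this
    exact left_eq_add.1 this
  refine ⟨fun a => if h : a ∈ P then ψ ((⟨a, h⟩ : P) : P ⧸ N.subgroupOf P) else 0, ?_, ?_, ?_⟩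
  · intro a ha b hb
    change (if h : a * b ∈ P then ψ ((⟨a * b, h⟩ : P) : P ⧸ N.subgroupOf P) else 0) =
      (if h : a ∈ P then ψ ((⟨a, h⟩ : P) : P ⧸ N.subgroupOf P) else 0) +
      (if h : b ∈ P then ψ ((⟨b, h⟩ : P) : P ⧸ N.subgroupOf P) else 0)
    rw [dif_pos (mul_mem ha hb), dif_pos ha, dif_pos hb]
    have h3 := h1 ((⟨a, ha⟩ : P) : P ⧸ N.subgroupOf P) trivial
      ((⟨b, hb⟩ : P) : P ⧸ N.subgroupOf P) trivial
    rw [← QuotientGroup.mk_mul] at h3
    exact h3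
  · intro a ha
    change (if h : a ∈ P then ψ ((⟨a, h⟩ : P) : P ⧸ N.subgroupOf P) else 0) = 0
    rw [dif_pos (hN ha)]
    have : ((⟨a, hN ha⟩ : P) : P ⧸ N.subgroupOf P) = 1 :=
      (QuotientGroup.eq_one_iff _).2 ha
    rw [this, h10]
  · intro a ha
    change (if h : a ∈ P then ψ ((⟨a, h⟩ : P) : P ⧸ N.subgroupOf P) else 0) = f a
    have h3 := h2 ((⟨a, hle ha⟩ : P) : P ⧸ N.subgroupOf P) ⟨⟨a, hle ha⟩, ha, rfl⟩
    rw [dif_pos (hle ha), h3]
    exact hF ⟨a, hle ha⟩ ha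

include hN hcomm in
/-- Characters trivial on `N` separate the elements which are not in `N`. -/
theorem exists_sep' (n : K) (hn : n ∈ P) (hn1 : n ∉ N) :
    ∃ ψ : K → AddCircle (1 : ℚ), (∀ a ∈ P, ∀ b ∈ P, ψ (a * b) = ψ a + ψ b) ∧
      (∀ a ∈ N, ψ a = 0) ∧ ψ n ≠ 0 := by
  classical
  have hnorm := subgroupOf_normal P N hcomm
  obtain ⟨ψ, h1, h2⟩ := exists_sep (K := P ⧸ N.subgroupOf P) ⊤
    (fun a _ b _ => quot_comm P N hcomm a b) ((⟨n, hn⟩ : P) : P ⧸ N.subgroupOf P) trivial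
    (fun h => hn1 ((QuotientGroup.eq_one_iff (N := N.subgroupOf P) (⟨n, hn⟩ : P)).1 h))
  have h10 : ψ 1 = 0 := by
    have := h1 1 trivial 1 trivial
    rw [mul_one] at this
    exact left_eq_add.1 this
  refine ⟨fun a => if h : a ∈ P then ψ ((⟨a, h⟩ : P) : P ⧸ N.subgroupOf P) else 0, ?_, ?_, ?_⟩
  · intro a ha b hb
    change (if h : a * b ∈ P then ψ ((⟨a * b, h⟩ : P) : P ⧸ N.subgroupOf P) else 0) =
      (if h : a ∈ P then ψ ((⟨a, h⟩ : P) : P ⧸ N.subgroupOf P) else 0) +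
      (if h : b ∈ P then ψ ((⟨b, h⟩ : P) : P ⧸ N.subgroupOf P) else 0)
    rw [dif_pos (mul_mem ha hb), dif_pos ha, dif_pos hb]
    have h3 := h1 ((⟨a, ha⟩ : P) : P ⧸ N.subgroupOf P) trivial
      ((⟨b, hb⟩ : P) : P ⧸ N.subgroupOf P) trivial
    rw [← QuotientGroup.mk_mul] at h3
    exact h3
  · intro a ha
    change (if h : a ∈ P then ψ ((⟨a, h⟩ : P) : P ⧸ N.subgroupOf P) else 0) = 0
    rw [dif_pos (hN ha)]
    have : ((⟨a, hN ha⟩ : P) : P ⧸ N.subgroupOf P) = 1 :=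
      (QuotientGroup.eq_one_iff _).2 ha
    rw [this, h10]
  · change (if h : n ∈ P then ψ ((⟨n, h⟩ : P) : P ⧸ N.subgroupOf P) else 0) ≠ 0
    rw [dif_pos hn]
    exact h2

end ext

section family

variable {K V : Type} [Group K] [MulAction K V] {T : SimpleGraph V}

/-- Compatible normal subgroups of the vertex stabilisers with abelian quotients. -/
structure Fam (K : Type) {V : Type} [Group K] [MulAction K V] (T : SimpleGraph V)
    (S : V → Subgroup K) : Prop where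
  le : ∀ v, S v ≤ MulAction.stabilizer K v
  conj : ∀ (k : K) v a, a ∈ S v → k * a * k⁻¹ ∈ S (k • v)
  edge : ∀ u v a, T.Adj u v → a ∈ S u → a • v = v → a ∈ S v
  comm : ∀ v (a b : K), a • v = v → b • v = v → a * b * a⁻¹ * b⁻¹ ∈ S v

/-- The characters of the stabilisers of the representatives. -/
noncomputable def Psi' (hT : TreeAct K V T) (v₀ : V) (S : V → Subgroup K)
    (ψ : K → AddCircle (1 : ℚ)) : ℕ → V → K → AddCircle (1 : ℚ)
  | 0 => fun _ => ψ
  | m + 1 => fun r => Classical.epsilon (fun φ : K → AddCircle (1 : ℚ) =>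
      (∀ a ∈ MulAction.stabilizer K r, ∀ b ∈ MulAction.stabilizer K r, φ (a * b) = φ a + φ b) ∧
      (∀ a ∈ S r, φ a = 0) ∧
      ∀ a ∈ MulAction.stabilizer K r ⊓ MulAction.stabilizer K (par hT v₀ r),
        φ a = Psi' hT v₀ S ψ m (vr K (par hT v₀ r))
          ((vg K (par hT v₀ r))⁻¹ * a * vg K (par hT v₀ r)))

/-- The characters of the stabilisers of the representatives. -/
noncomputable def psi' (hT : TreeAct K V T) (v₀ : V) (S : V → Subgroup K)
    (ψ : K → AddCircle (1 : ℚ)) (r : V) :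
    K → AddCircle (1 : ℚ) := Psi' hT v₀ S ψ (ht hT v₀ r) r

/-- The characters of the stabilisers. -/
noncomputable def chi' (hT : TreeAct K V T) (v₀ : V) (S : V → Subgroup K)
    (ψ : K → AddCircle (1 : ℚ)) (v : V) (a : K) :
    AddCircle (1 : ℚ) := psi' hT v₀ S ψ (vr K v) ((vg K v)⁻¹ * a * vg K v)

variable (hT : TreeAct K V T) {S : V → Subgroup K} (hS : Fam K T S)
  {v₀ : V} {ψ : K → AddCircle (1 : ℚ)}
  (hψ : ∀ a ∈ MulAction.stabilizer K (vr K v₀), ∀ b ∈ MulAction.stabilizer K (vr K v₀),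
    ψ (a * b) = ψ a + ψ b)
  (hψ0 : ∀ a ∈ S (vr K v₀), ψ a = 0)

include hS in
theorem Fam.conj_inv {v : V} {a : K} (ha : a ∈ S v) :
    (vg K v)⁻¹ * a * vg K v ∈ S (vr K v) := by
  have h1 := hS.conj (vg K v)⁻¹ v a ha
  have h2 : (vg K v)⁻¹ • v = vr K v := by rw [inv_smul_eq_iff, vg_smul]
  rwa [h2, inv_inv] at h1

include hS hψ hψ0

theorem psi'_spec (m : ℕ) : ∀ r : V, vr K r = r → ht hT v₀ r = m →
    (∀ a ∈ MulAction.stabilizer K r, ∀ b ∈ MulAction.stabilizer K r,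
      psi' hT v₀ S ψ r (a * b) = psi' hT v₀ S ψ r a + psi' hT v₀ S ψ r b) ∧
    (∀ a ∈ S r, psi' hT v₀ S ψ r a = 0) ∧
    ∀ k, m = k + 1 → ∀ a ∈ MulAction.stabilizer K r ⊓ MulAction.stabilizer K (par hT v₀ r),
      psi' hT v₀ S ψ r a = chi' hT v₀ S ψ (par hT v₀ r) a := by
  induction m with
  | zero =>
    intro r hr hm
    obtain ⟨k, hk⟩ := ht_zero hT hm
    have h1 : r = vr K v₀ := by rw [← hr, ← hk, vr_smul]
    have h2 : psi' hT v₀ S ψ r = ψ := by rw [psi', hm]; rfl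
    refine ⟨?_, ?_, fun k hk => absurd hk (by omega)⟩
    · rw [h2, h1]
      exact hψ
    · rw [h2, h1]
      exact hψ0
  | succ m ih =>
    intro r hr hm
    obtain ⟨h1, h2⟩ := par_spec hT hm
    set u := par hT v₀ r with hu
    have h3 : psi' hT v₀ S ψ (vr K u) = Psi' hT v₀ S ψ m (vr K u) := by
      rw [psi', ht_vr, h2]
    have h4 := ih (vr K u) (vr_vr u) (by rw [ht_vr, h2])
    have h5 := exists_ext' (MulAction.stabilizer K r) (S r) (hS.le r)
      (fun a ha b hb => hS.comm r a b ha hb)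
      (MulAction.stabilizer K r ⊓ MulAction.stabilizer K u) inf_le_left
      (fun a => Psi' hT v₀ S ψ m (vr K u) ((vg K u)⁻¹ * a * vg K u)) (fun a ha b hb => by
        have e : (vg K u)⁻¹ * (a * b) * vg K u =
            ((vg K u)⁻¹ * a * vg K u) * ((vg K u)⁻¹ * b * vg K u) := by group
        change Psi' hT v₀ S ψ m (vr K u) ((vg K u)⁻¹ * (a * b) * vg K u) = _
        rw [e, ← h3]
        exact h4.1 _ (conj_mem_stab ha.2) _ (conj_mem_stab hb.2)) (fun a ha haS => by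
        change Psi' hT v₀ S ψ m (vr K u) ((vg K u)⁻¹ * a * vg K u) = 0
        rw [← h3]
        exact h4.2.1 _ (hS.conj_inv (hS.edge r u a h1.symm haS ha.2)))
    have h6 := Classical.epsilon_spec h5
    have h7 : psi' hT v₀ S ψ r = Classical.epsilon (fun φ : K → AddCircle (1 : ℚ) =>
      (∀ a ∈ MulAction.stabilizer K r, ∀ b ∈ MulAction.stabilizer K r, φ (a * b) = φ a + φ b) ∧
      (∀ a ∈ S r, φ a = 0) ∧
      ∀ a ∈ MulAction.stabilizer K r ⊓ MulAction.stabilizer K u,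
        φ a = Psi' hT v₀ S ψ m (vr K u) ((vg K u)⁻¹ * a * vg K u)) := by
      rw [psi', hm]
      rfl
    rw [← h7] at h6
    refine ⟨h6.1, h6.2.1, fun k _ a ha => ?_⟩
    rw [h6.2.2 a ha, chi', h3]

theorem chi'_mul (v : V) (a b : K) (ha : a • v = v) (hb : b • v = v) :
    chi' hT v₀ S ψ v (a * b) = chi' hT v₀ S ψ v a + chi' hT v₀ S ψ v b := by
  have e : (vg K v)⁻¹ * (a * b) * vg K v =
      ((vg K v)⁻¹ * a * vg K v) * ((vg K v)⁻¹ * b * vg K v) := by group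
  rw [chi', e]
  exact (psi'_spec hT hS hψ hψ0 _ (vr K v) (vr_vr v) rfl).1 _ (conj_mem_stab ha) _
    (conj_mem_stab hb)

theorem chi'_zero (v : V) (a : K) (ha : a ∈ S v) : chi' hT v₀ S ψ v a = 0 :=
  (psi'_spec hT hS hψ hψ0 _ (vr K v) (vr_vr v) rfl).2.1 _ (hS.conj_inv ha)

theorem psi'_conj (r : V) (hr : vr K r = r) (s x : K) (hs : s • r = r) (hx : x • r = r) :
    psi' hT v₀ S ψ r (s * x * s⁻¹) = psi' hT v₀ S ψ r x := by
  have h := (psi'_spec hT hS hψ hψ0 _ r hr rfl).1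
  have hs' : s ∈ MulAction.stabilizer K r := hs
  have hx' : x ∈ MulAction.stabilizer K r := hx
  have h1 : psi' hT v₀ S ψ r (s * x * s⁻¹ * s) = psi' hT v₀ S ψ r (s * x) := by
    rw [inv_mul_cancel_right]
  rw [h _ (mul_mem (mul_mem hs' hx') (inv_mem hs')) _ hs', h _ hs' _ hx', add_comm] at h1
  exact add_left_cancel h1

theorem chi'_conj (v : V) (k a : K) (ha : a • v = v) :
    chi' hT v₀ S ψ (k • v) (k * a * k⁻¹) = chi' hT v₀ S ψ v a := by
  have h1 : vr K (k • v) = vr K v := vr_smul k v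
  rw [chi', chi', h1]
  set g := vg K v with hg
  set g' := vg K (k • v) with hg'
  have h2 : g' • vr K v = k • v := by
    have := vg_smul (K := K) (k • v)
    rwa [h1] at this
  have h3 : (g'⁻¹ * k * g) • vr K v = vr K v := by
    rw [mul_smul, mul_smul, hg, vg_smul, inv_smul_eq_iff, h2]
  have h5 : g'⁻¹ * (k * a * k⁻¹) * g' = (g'⁻¹ * k * g) * (g⁻¹ * a * g) * (g'⁻¹ * k * g)⁻¹ := by
    group
  rw [h5]
  exact psi'_conj hT hS hψ hψ0 (vr K v) (vr_vr v) _ _ h3 (conj_mem_stab ha)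

theorem chi'_edge_lower (hgen : Subgroup.closure {k : K | ∃ v : V, k • v = v} = ⊤)
    (u v : V) (a : K) (huv : T.Adj u v) (hu : a • u = u) (hv : a • v = v) {m : ℕ}
    (hhu : ht hT v₀ u = m) (hhv : ht hT v₀ v = m + 1) :
    chi' hT v₀ S ψ u a = chi' hT v₀ S ψ v a := by
  set g := vg K v with hg
  set r := vr K v with hr
  have hgr : g • r = v := vg_smul v
  have hr1 : ht hT v₀ r = m + 1 := by rw [hr, ht_vr, hhv]
  obtain ⟨h1, h2⟩ := par_spec hT hr1
  set w := par hT v₀ r with hw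
  have h3 : T.Adj (g⁻¹ • u) r := by
    have := hT.adj g⁻¹ huv
    rwa [← hgr, inv_smul_smul] at this
  obtain ⟨n, hn1, hn2⟩ := exists_fix hT hgen hr1 h2 (by rw [ht_smul, hhu]) h1 h3
  set a' := g⁻¹ * a * g with ha'
  have ha'r : a' • r = r := conj_mem_stab hv
  have ha'u : a' • g⁻¹ • u = g⁻¹ • u := by
    rw [ha', mul_smul, mul_smul, smul_inv_smul, hu]
  set b := n⁻¹ * a' * n with hb
  have hbr : b • r = r := by
    rw [hb, mul_smul, mul_smul, hn1, ha'r, inv_smul_eq_iff, hn1]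
  have hbw : b • w = w := by
    rw [hb, mul_smul, mul_smul, hn2, ha'u, inv_smul_eq_iff, hn2]
  have hnb : n * b * n⁻¹ = a' := by rw [hb]; group
  have h6 : chi' hT v₀ S ψ v a = psi' hT v₀ S ψ r a' := rfl
  have h7 : psi' hT v₀ S ψ r b = chi' hT v₀ S ψ w b :=
    (psi'_spec hT hS hψ hψ0 _ r (vr_vr v) rfl).2.2 m hr1 b ⟨hbr, hbw⟩
  have h7' : psi' hT v₀ S ψ r a' = psi' hT v₀ S ψ r b := by
    rw [← hnb]
    exact psi'_conj hT hS hψ hψ0 r (vr_vr v) n b hn1 hbr
  have h8 : chi' hT v₀ S ψ (n • w) (n * b * n⁻¹) = chi' hT v₀ S ψ w b :=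
    chi'_conj hT hS hψ hψ0 w n b hbw
  rw [hn2, hnb] at h8
  have h9 : chi' hT v₀ S ψ (g • g⁻¹ • u) (g * a' * g⁻¹) = chi' hT v₀ S ψ (g⁻¹ • u) a' :=
    chi'_conj hT hS hψ hψ0 _ g a' ha'u
  rw [smul_inv_smul] at h9
  have h10 : g * a' * g⁻¹ = a := by rw [ha']; group
  rw [h10] at h9
  rw [h9, h8, ← h7, ← h7', h6]

omit hψ hψ0 in
include hT in
/-- **Compatible characters.** -/
theorem exists_family' (hgen : Subgroup.closure {k : K | ∃ v : V, k • v = v} = ⊤)
    (v₀ : V) (n : K) (hn : n • v₀ = v₀) (hn1 : n ∉ S v₀) :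
    ∃ χ : V → K → AddCircle (1 : ℚ),
      (∀ v a b, a • v = v → b • v = v → χ v (a * b) = χ v a + χ v b) ∧
      (∀ v k a, a • v = v → χ (k • v) (k * a * k⁻¹) = χ v a) ∧
      (∀ u v a, T.Adj u v → a • u = u → a • v = v → χ u a = χ v a) ∧
      (∀ v, ∀ a ∈ S v, χ v a = 0) ∧ χ v₀ n ≠ 0 := by
  have h1 : (vg K v₀)⁻¹ * n * vg K v₀ ∉ S (vr K v₀) := by
    intro h
    apply hn1
    have h2 := hS.conj (vg K v₀) _ _ h
    rw [vg_smul] at h2
    have h3 : vg K v₀ * ((vg K v₀)⁻¹ * n * vg K v₀) * (vg K v₀)⁻¹ = n := by group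
    rwa [h3] at h2
  obtain ⟨ψ, hψ, hψ0, hψn⟩ := exists_sep' (MulAction.stabilizer K (vr K v₀)) (S (vr K v₀))
    (hS.le _) (fun a ha b hb => hS.comm _ a b ha hb) _ (conj_mem_stab hn) h1
  refine ⟨chi' hT v₀ S ψ, chi'_mul hT hS hψ hψ0, chi'_conj hT hS hψ hψ0,
    fun u v a huv hu hv => ?_, chi'_zero hT hS hψ hψ0, ?_⟩
  · have h2 := ht_ne (v₀ := v₀) hT hgen huv
    have h3 := ht_adj (v₀ := v₀) hT huv
    have h4 := ht_adj (v₀ := v₀) hT huv.symm
    rcases Nat.lt_or_gt_of_ne h2 with h | h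
    · exact chi'_edge_lower hT hS hψ hψ0 hgen u v a huv hu hv rfl (by omega)
    · exact (chi'_edge_lower hT hS hψ hψ0 hgen v u a huv.symm hv hu rfl (by omega)).symm
  · have h2 : psi' hT v₀ S ψ (vr K v₀) = ψ := by
      rw [psi', ht_vr, ht_base]
      rfl
    rw [chi', h2]
    exact hψn

end family

end Pool.Agent.T59
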