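import Pool.Agent.T59.E
import Pool.Agent.T59.F

/-!
# Groups acting on trees: compatible series with abelian factors
-/

set_option autoImplicit false

namespace Pool.Agent.T59

open Pool.Agent.Helper29.BA Pool.Agent.Helper29.PA
open scoped commutatorElement

variable {G Q V : Type} [Group G] [Group Q] [MulAction G V]

/-- A compatible series of length `m` with abelian factors of the groups of the elements of the
kernel of `p` which fix a vertex. -/
structure Series (T : SimpleGraph V) (p : G →* Q) (m : ℕ) (S : ℕ → V → Subgroup G) : Prop where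
  bot : ∀ v, S 0 v = ⊥
  top : ∀ v a, a ∈ S m v ↔ a • v = v ∧ p a = 1
  mono : ∀ i < m, ∀ v, S i v ≤ S (i + 1) v
  conj : ∀ i ≤ m, ∀ (g : G) v a, a ∈ S i v → g * a * g⁻¹ ∈ S i (g • v)
  edge : ∀ i ≤ m, ∀ u v a, T.Adj u v → a ∈ S i u → a • v = v → a ∈ S i v
  comm : ∀ i < m, ∀ v, ∀ a ∈ S (i + 1) v, ∀ b ∈ S (i + 1) v, a * b * a⁻¹ * b⁻¹ ∈ S i v

namespace Series

variable {T : SimpleGraph V} {p : G →* Q} {m : ℕ} {S : ℕ → V → Subgroup G}

/-- The subgroup generated by the members of the series. -/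
def M (S : ℕ → V → Subgroup G) (i : ℕ) : Subgroup G := Subgroup.closure {a | ∃ v, a ∈ S i v}

theorem le_top (hS : Series T p m S) (j : ℕ) : ∀ i, i + j = m → ∀ v, S i v ≤ S m v := by
  induction j with
  | zero =>
    intro i hi v
    have : i = m := by omega
    rw [this]
  | succ j ih =>
    intro i hi v
    exact (hS.mono i (by omega) v).trans (ih (i + 1) (by omega) v)

theorem fix (hS : Series T p m S) {i : ℕ} (hi : i ≤ m) {v : V} {a : G} (ha : a ∈ S i v) :
    a • v = v ∧ p a = 1 :=
  (hS.top v a).1 (hS.le_top (m - i) i (by omega) v ha)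

theorem M_normal (hS : Series T p m S) {i : ℕ} (hi : i ≤ m) : (M S i).Normal := by
  refine ⟨fun k hk g => ?_⟩
  induction hk using Subgroup.closure_induction with
  | mem x hx =>
    obtain ⟨v, hv⟩ := hx
    exact Subgroup.subset_closure ⟨g • v, hS.conj i hi g v x hv⟩
  | one => simp
  | mul x y _ _ hx hy =>
    have : g * (x * y) * g⁻¹ = (g * x * g⁻¹) * (g * y * g⁻¹) := by group
    rw [this]
    exact mul_mem hx hy
  | inv x _ hx =>
    have : g * x⁻¹ * g⁻¹ = (g * x * g⁻¹)⁻¹ := by group
    rw [this]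
    exact inv_mem hx

theorem M_mono (hS : Series T p m S) {i : ℕ} (hi : i < m) : M S i ≤ M S (i + 1) :=
  Subgroup.closure_mono fun _ ⟨v, hv⟩ => ⟨v, hS.mono i hi v hv⟩

/-- The induction hypothesis. -/
structure Good (C : ∀ (G : Type) [Group G], Prop) (S : ℕ → V → Subgroup G) (i : ℕ) : Prop where
  stab : ∀ v, ∀ a ∈ M S i, a • v = v → a ∈ S i v
  mem : ∀ [(M S i).Normal], C (G ⧸ M S i)

theorem step {C : ∀ (G : Type) [Group G], Prop} (hC : ExtClass C) (hA : HasAbCyclic C)
    (hT : TreeAct G V T) (hS : Series T p m S) {i : ℕ} (hi : i < m) (h : Good C S (i + 1)) :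
    Good C S i := by
  have hn1 := hS.M_normal (i := i + 1) hi
  have hn0 := hS.M_normal (i := i) hi.le
  set K : Subgroup G := M S (i + 1) with hK
  set L : Subgroup G := ⁅K, K⁆ ⊔ M S i with hL
  have hLK : L ≤ K := sup_le (Subgroup.commutator_le_left K K) (hS.M_mono hi)
  have hML : M S i ≤ L := le_sup_right
  have hLn : L.Normal := inferInstance
  have h1 : C (G ⧸ L) := by
    refine mem_of_abelian_kernel hC hA (QuotientGroup.map L K (MonoidHom.id G) hLK) h.mem ?_
    intro a b
    induction a using QuotientGroup.induction_on with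
    | H a =>
      induction b using QuotientGroup.induction_on with
      | H b =>
        intro ha hb
        have ha' : a ∈ K := (QuotientGroup.eq_one_iff a).1 ha
        have hb' : b ∈ K := (QuotientGroup.eq_one_iff b).1 hb
        rw [← QuotientGroup.mk_mul, ← QuotientGroup.mk_mul, QuotientGroup.eq]
        have : (a * b)⁻¹ * (b * a) = ⁅b⁻¹, a⁻¹⁆ := by
          rw [commutatorElement_def]
          group
        rw [this]
        exact (le_sup_left : ⁅K, K⁆ ≤ L)
          (Subgroup.commutator_mem_commutator (inv_mem hb') (inv_mem ha'))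
  have hT0 : TreeAct K V T :=
    { tree := hT.tree
      adj := fun g => hT.adj (g : G)
      noinv := fun g => hT.noinv (g : G) }
  have hgen : Subgroup.closure {k : K | ∃ v : V, k • v = v} = ⊤ := by
    have h2 : Subgroup.closure ((fun k : K => (k : G)) ⁻¹' {a : G | ∃ v : V, a ∈ S (i + 1) v}) = ⊤ :=
      Subgroup.closure_closure_coe_preimage
    rw [← top_le_iff, ← h2]
    refine Subgroup.closure_mono fun k hk => ?_
    obtain ⟨v, hv⟩ := hk
    exact ⟨v, (hS.fix hi hv).1⟩
  have hfam : Fam K T (fun v => (S i v).subgroupOf K) :=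
    { le := fun v a ha => (hS.fix hi.le (Subgroup.mem_subgroupOf.1 ha)).1
      conj := fun k v a ha => Subgroup.mem_subgroupOf.2
        (hS.conj i hi.le k v a (Subgroup.mem_subgroupOf.1 ha))
      edge := fun u v a huv ha hv => Subgroup.mem_subgroupOf.2
        (hS.edge i hi.le u v a huv (Subgroup.mem_subgroupOf.1 ha) hv)
      comm := fun v a b ha hb => Subgroup.mem_subgroupOf.2
        (hS.comm i hi v a (h.stab v a a.2 ha) b (h.stab v b b.2 hb)) }
  have hLstab : ∀ v, ∀ n ∈ L, n • v = v → n ∈ S i v := by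
    intro v n hn hv
    by_contra hnS
    obtain ⟨χ, e1, e2, e3, e4, e5⟩ := exists_family' hT0 hfam hgen v ⟨n, hLK hn⟩ hv
      (fun h => hnS (Subgroup.mem_subgroupOf.1 h))
    obtain ⟨φ, hφ⟩ := exists_character hT0 χ e1 e2 e3
    have hle : L ≤ φ.ker.map K.subtype := by
      refine sup_le ?_ ?_
      · rw [← Subgroup.map_subtype_commutator]
        exact Subgroup.map_mono (Abelianization.commutator_subset_ker φ)
      · refine (Subgroup.closure_le _).2 ?_
        rintro a ⟨u, hu⟩
        have haK : a ∈ K := Subgroup.subset_closure ⟨u, hS.mono i hi u hu⟩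
        refine ⟨⟨a, haK⟩, ?_, rfl⟩
        change φ ⟨a, haK⟩ = 1
        rw [hφ u ⟨a, haK⟩ (hS.fix hi.le hu).1, e4 u ⟨a, haK⟩ (Subgroup.mem_subgroupOf.2 hu)]
        rfl
    obtain ⟨k, hk, hkn⟩ := hle hn
    have hk' : k = ⟨n, hLK hn⟩ := Subtype.ext hkn
    rw [hk'] at hk
    have e6 : φ ⟨n, hLK hn⟩ = 1 := hk
    rw [hφ v ⟨n, hLK hn⟩ hv] at e6
    exact e5 e6
  refine ⟨fun v a ha hv => hLstab v a (hML ha) hv, ?_⟩
  intro _
  refine mem_quot_closure hC hT L (M S i) (le_antisymm ?_ ?_) h1
  · refine Subgroup.closure_mono ?_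
    rintro a ⟨v, hv⟩
    exact ⟨hML (Subgroup.subset_closure ⟨v, hv⟩), v, (hS.fix hi.le hv).1⟩
  · refine Subgroup.closure_mono ?_
    rintro a ⟨ha, v, hv⟩
    exact ⟨v, hLstab v a ha hv⟩

theorem start {C : ∀ (G : Type) [Group G], Prop} (hC : ExtClass C)
    (hT : TreeAct G V T) (hS : Series T p m S) (hQ : C Q) : Good C S m := by
  have hle : M S m ≤ p.ker := (Subgroup.closure_le _).2 fun a ⟨v, hv⟩ => ((hS.top v a).1 hv).2
  refine ⟨fun v a ha hv => (hS.top v a).2 ⟨hv, hle ha⟩, ?_⟩
  intro _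
  have hQ' : C (G ⧸ p.ker) :=
    hC.toClosedClass.inj (QuotientGroup.kerLift p) (QuotientGroup.kerLift_injective p) hQ
  refine mem_quot_closure hC hT p.ker (M S m) (le_antisymm ?_ ?_) hQ'
  · refine Subgroup.closure_mono ?_
    rintro a ⟨v, hv⟩
    exact ⟨((hS.top v a).1 hv).2, v, ((hS.top v a).1 hv).1⟩
  · refine Subgroup.closure_mono ?_
    rintro a ⟨ha, v, hv⟩
    exact ⟨v, (hS.top v a).2 ⟨hv, ha⟩⟩

/-- **Theorem T, series version.** -/
theorem mem {C : ∀ (G : Type) [Group G], Prop} (hC : ExtClass C) (hA : HasAbCyclic C)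
    (hT : TreeAct G V T) (hS : Series T p m S) (hQ : C Q) : C G := by
  have key : ∀ j, j ≤ m → Good C S (m - j) := by
    intro j
    induction j with
    | zero => intro _; exact hS.start hC hT hQ
    | succ j ih =>
      intro hj
      refine hS.step hC hA hT (i := m - (j + 1)) (by omega) ?_
      have : m - (j + 1) + 1 = m - j := by omega
      rw [this]
      exact ih (by omega)
  have h0 := key m le_rfl
  rw [Nat.sub_self] at h0
  have hb : M S 0 = ⊥ := by
    rw [M, Subgroup.closure_eq_bot_iff]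
    rintro a ⟨v, hv⟩
    rw [hS.bot v] at hv
    exact hv
  have hn := hS.M_normal (i := 0) (Nat.zero_le m)
  have h1 := h0.mem
  exact hC.iso _ _ ((QuotientGroup.quotientMulEquivOfEq hb).trans QuotientGroup.quotientBot) h1

end Series

end Pool.Agent.T59
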