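import Pool.Agent.Helper78.PA.FreeExt

/-!
# HNN extensions in closed classes

An HNN extension of `H` is in the class if `H` embeds in a group `Q` of the class in which the
stable letter is realised: it embeds in `FreeGroup Y ⋊ Q` for a `Q`-set `Y`.
-/

set_option autoImplicit false

namespace Pool.Agent.T59

open Pool.Agent.Helper29.BA Pool.Agent.Helper29.PA HNNExtension HNNExtension.NormalWord

section hnn

variable {H Q : Type} [Group H] [Group Q] {A B : Subgroup H} (φ : A ≃* B) (e : H →* Q) (q : Q)

/-- The cosets of the image of `B`. -/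
abbrev Cst (B : Subgroup H) (e : H →* Q) : Type := Q ⧸ (B.map e)

/-- The image of the stable letter. -/
def tIm (B : Subgroup H) (e : H →* Q) (q : Q) : FQ Q (Cst B e) :=
  SemidirectProduct.inl (FreeGroup.of ((1 : Q) : Cst B e)) * SemidirectProduct.inr q

/-- The map to `FreeGroup Y ⋊ Q`. -/
def hnnEmb (hq : ∀ a : A, q * e a = e (φ a) * q) : HNNExtension H A B φ →* FQ Q (Cst B e) :=
  HNNExtension.lift (SemidirectProduct.inr.comp e) (tIm B e q) (fun a => by
    have h1 : (e (φ a) : Q) • ((1 : Q) : Cst B e) = ((1 : Q) : Cst B e) := by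
      change (((e (φ a) : Q) * 1 : Q) : Cst B e) = ((1 : Q) : Cst B e)
      rw [QuotientGroup.eq, mul_one, mul_one]
      exact inv_mem ⟨_, (φ a).2, rfl⟩
    unfold tIm
    ext
    · simp [h1]
    · simp [hq a])

/-- The letters of the free group. -/
def lst (B : Subgroup H) (e : H →* Q) (q : Q) : Q → List (ℤˣ × H) → List (Cst B e × Bool)
  | _, [] => []
  | h, (u, g) :: l =>
    if u = 1 then ((h : Cst B e), true) :: lst B e q (h * q * e g) l
    else (((h * q⁻¹ : Q) : Cst B e), false) :: lst B e q (h * q⁻¹ * e g) l

theorem lst_eq_nil {h : Q} {l : List (ℤˣ × H)} (hl : lst B e q h l = []) : l = [] := by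
  cases l with
  | nil => rfl
  | cons a l =>
    obtain ⟨u, g⟩ := a
    rw [lst] at hl
    split_ifs at hl

theorem key_pos (h : Q) (g : H) :
    (SemidirectProduct.inr h : FQ Q (Cst B e)) * (tIm B e q * SemidirectProduct.inr (e g)) =
      SemidirectProduct.inl (FreeGroup.of ((h : Q) : Cst B e)) *
        SemidirectProduct.inr (h * q * e g) := by
  have h1 : h • ((1 : Q) : Cst B e) = (h : Cst B e) := by
    change ((h * 1 : Q) : Cst B e) = (h : Cst B e)
    rw [mul_one]
  ext
  · simp [tIm, h1]
  · simp [tIm, mul_assoc]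

theorem key_neg (h : Q) (g : H) :
    (SemidirectProduct.inr h : FQ Q (Cst B e)) * ((tIm B e q)⁻¹ * SemidirectProduct.inr (e g)) =
      SemidirectProduct.inl (FreeGroup.of ((h * q⁻¹ : Q) : Cst B e))⁻¹ *
        SemidirectProduct.inr (h * q⁻¹ * e g) := by
  have h1 : (h * q⁻¹) • ((1 : Q) : Cst B e) = ((h * q⁻¹ : Q) : Cst B e) := by
    change ((h * q⁻¹ * 1 : Q) : Cst B e) = ((h * q⁻¹ : Q) : Cst B e)
    rw [mul_one]
  ext
  · simp only [tIm, mul_inv_rev, SemidirectProduct.mul_left, SemidirectProduct.left_inr,
      SemidirectProduct.right_inr, one_mul, SemidirectProduct.inv_left, SemidirectProduct.left_inl,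
      SemidirectProduct.right_inl, SemidirectProduct.inv_right, inv_one, map_one, mul_one, map_inv]
    have h2 : MulEquiv.symm (frAct Q (Cst B e) q) = frAct Q (Cst B e) q⁻¹ :=
      (map_inv (frAct Q (Cst B e)) q).symm
    simp only [inv_inj]
    simp
    rw [h2, frAct_of, frAct_of, ← mul_smul, h1]
  · simp [tIm, mul_assoc]

theorem left_prod (h : Q) (l : List (ℤˣ × H)) :
    ((SemidirectProduct.inr h : FQ Q (Cst B e)) *
      (l.map (fun x => tIm B e q ^ (x.1 : ℤ) * SemidirectProduct.inr (e x.2))).prod).left =
      FreeGroup.mk (lst B e q h l) := by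
  induction l generalizing h with
  | nil => simp [lst, FreeGroup.one_eq_mk]
  | cons a l ih =>
    obtain ⟨u, g⟩ := a
    rw [List.map_cons, List.prod_cons, ← mul_assoc]
    rcases Int.units_eq_one_or u with rfl | rfl
    · have h1 := key_pos (B := B) e q h g
      simp only [Units.val_one, zpow_one]
      rw [h1, mul_assoc, SemidirectProduct.mul_left, ih]
      simp [lst, FreeGroup.of]
    · have h1 := key_neg (B := B) e q h g
      simp only [Units.val_neg, Units.val_one, zpow_neg, zpow_one]
      rw [h1, mul_assoc, SemidirectProduct.mul_left, ih]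
      simp [lst, FreeGroup.of, FreeGroup.inv_mk, FreeGroup.invRev]

theorem coset_eq {a b : Q} (he : Function.Injective e) {x : H}
    (h : ((a : Q) : Cst B e) = b) (hab : a⁻¹ * b = e x) : x ∈ B := by
  rw [QuotientGroup.eq, hab] at h
  obtain ⟨y, hy, hxy⟩ := h
  rwa [← he hxy]

theorem lst_reduced (he : Function.Injective e) (hq : ∀ a : A, q * e a = e (φ a) * q) (h : Q)
    (l : List (ℤˣ × H))
    (hl : l.IsChain (fun a b => a.2 ∈ toSubgroup A B a.1 → a.1 = b.1)) :
    FreeGroup.IsReduced (lst B e q h l) := by
  induction l generalizing h with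
  | nil => exact FreeGroup.IsReduced.nil
  | cons a l ih =>
    obtain ⟨u, g⟩ := a
    cases l with
    | nil =>
      rw [lst]
      split_ifs
      · exact FreeGroup.IsReduced.singleton
      · exact FreeGroup.IsReduced.singleton
    | cons b l =>
      obtain ⟨v, k⟩ := b
      rw [List.isChain_cons_cons] at hl
      have hq' : ∀ b' : B, q⁻¹ * e b' * q = e (φ.symm b') := by
        intro b'
        have := hq (φ.symm b')
        rw [MulEquiv.apply_symm_apply] at this
        rw [mul_assoc, ← this, inv_mul_cancel_left]
      rcases Int.units_eq_one_or u with rfl | rfl <;> rcases Int.units_eq_one_or v with rfl | rfl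
      · have := ih (h * q * e g) hl.2
        simp only [lst, if_true] at this ⊢
        rw [FreeGroup.isReduced_cons_cons]
        exact ⟨fun _ => rfl, this⟩
      · have := ih (h * q * e g) hl.2
        simp only [lst, if_true] at this ⊢
        rw [if_neg (by decide)] at this ⊢
        rw [FreeGroup.isReduced_cons_cons]
        refine ⟨fun h1 => ?_, this⟩
        exfalso
        have h2 : q * e g * q⁻¹ ∈ B.map e := by
          have h3 := QuotientGroup.eq.1 h1
          have h4 : h⁻¹ * (h * q * e g * q⁻¹) = q * e g * q⁻¹ := by group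
          rwa [h4] at h3
        obtain ⟨b, hb, hb'⟩ := h2
        have h5 : e (φ.symm ⟨b, hb⟩) = e g := by
          rw [← hq' ⟨b, hb⟩, hb']
          group
        have h6 : g ∈ A := by
          rw [← he h5]
          exact (φ.symm ⟨b, hb⟩).2
        have h7 := hl.1 h6
        simp at h7
      · have := ih (h * q⁻¹ * e g) hl.2
        simp only [lst, if_true] at this ⊢
        rw [if_neg (by decide)]
        rw [FreeGroup.isReduced_cons_cons]
        refine ⟨fun h1 => ?_, this⟩
        exfalso
        have h6 : g ∈ B := coset_eq e he h1 (by group)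
        have h7 := hl.1 h6
        simp at h7
      · have := ih (h * q⁻¹ * e g) hl.2
        simp only [lst] at this ⊢
        rw [if_neg (by decide)] at this ⊢
        rw [if_neg (by decide)]
        rw [FreeGroup.isReduced_cons_cons]
        exact ⟨fun _ => rfl, this⟩

open Classical in
theorem hnnEmb_injective (he : Function.Injective e) (hq : ∀ a : A, q * e a = e (φ a) * q) :
    Function.Injective (hnnEmb φ e q hq) := by
  rw [injective_iff_map_eq_one]
  intro x hx
  obtain ⟨d⟩ := TransversalPair.nonempty H A B
  obtain ⟨w, rfl⟩ : ∃ w : NormalWord d, w.prod φ = x :=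
    ⟨NormalWord.equiv φ d x, (NormalWord.equiv φ d).symm_apply_apply x⟩
  have h1 : hnnEmb φ e q hq (w.prod φ) = SemidirectProduct.inr (e w.head) *
      (w.toList.map (fun x => tIm B e q ^ (x.1 : ℤ) * SemidirectProduct.inr (e x.2))).prod := by
    rw [ReducedWord.prod, map_mul, map_list_prod, List.map_map]
    have h0 : hnnEmb φ e q hq (of w.head) = SemidirectProduct.inr (e w.head) := by
      simp [hnnEmb]
    rw [h0]
    congr 2
    refine List.map_congr_left fun y _ => ?_
    simp [hnnEmb]
  have h2 : FreeGroup.mk (lst B e q (e w.head) w.toList) = 1 := by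
    rw [← left_prod, ← h1, hx]
    rfl
  have h3 : lst B e q (e w.head) w.toList = [] := by
    have h4 := lst_reduced φ e q he hq (e w.head) w.toList w.chain
    have h5 := congrArg FreeGroup.toWord h2
    rw [FreeGroup.toWord_mk, h4.reduce_eq, FreeGroup.toWord_one] at h5
    exact h5
  have h6 := lst_eq_nil e q h3
  rw [h1, h6] at hx
  have h7 : e w.head = 1 := by
    have := congrArg SemidirectProduct.right hx
    simpa using this
  have h8 : w.head = 1 := he (h7.trans (map_one e).symm)
  rw [ReducedWord.prod, h6, h8]
  simp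

end hnn

variable {C : ∀ (G : Type) [Group G], Prop}

/-- HNN extensions realised in groups of the class. -/
theorem mem_hnn (hC : ExtClass C) {H Q : Type} [Group H] [Group Q] {A B : Subgroup H}
    (φ : A ≃* B) (hQ : C Q) (e : H →* Q) (he : Function.Injective e) (q : Q)
    (hq : ∀ a : A, q * e a = e (φ a) * q) : C (HNNExtension H A B φ) :=
  hC.inj (hnnEmb φ e q hq) (hnnEmb_injective φ e q he hq) (hC.freeExt Q _ hQ)

end Pool.Agent.T59
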