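import Pool.Agent.T59.Hnn

/-!
# The local conjugation principle

Let `p : G → R` be a homomorphism to a group `R` of the class, and let the kernel of `p` be the
directed union of subgroups `S i`. Assume that for all `g` in `G` and all `i` the partial
conjugation by `g` on `S i` is realised by a conjugation in a group of the class which contains
`S i`. Then `G` is in the class.
-/

set_option autoImplicit false

namespace Pool.Agent.T59

open Pool.Agent.Helper29.BA Pool.Agent.Helper29.PA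

section loc

variable {G : Type} [Group G] (g : G)

/-- The domain of the partial conjugation by `g` on `S`. -/
def domA (S : Subgroup G) : Subgroup S where
  carrier := {x | g * x * g⁻¹ ∈ S}
  one_mem' := by simp
  mul_mem' := by
    intro a b ha hb
    change g * (a * b : G) * g⁻¹ ∈ S
    have : g * (a * b : G) * g⁻¹ = (g * a * g⁻¹) * (g * b * g⁻¹) := by group
    rw [this]
    exact mul_mem ha hb
  inv_mem' := by
    intro a ha
    change g * (a⁻¹ : G) * g⁻¹ ∈ S
    have : g * (a⁻¹ : G) * g⁻¹ = (g * a * g⁻¹)⁻¹ := by group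
    rw [this]
    exact inv_mem ha

/-- The partial conjugation by `g` on `S`. -/
def phi (S : Subgroup G) : domA g S ≃* domA g⁻¹ S where
  toFun x := ⟨⟨g * x.1.1 * g⁻¹, x.2⟩, by
    change g⁻¹ * (g * x.1.1 * g⁻¹) * g⁻¹⁻¹ ∈ S
    have : g⁻¹ * (g * x.1.1 * g⁻¹) * g⁻¹⁻¹ = x.1.1 := by group
    rw [this]
    exact x.1.2⟩
  invFun y := ⟨⟨g⁻¹ * y.1.1 * g⁻¹⁻¹, y.2⟩, by
    change g * (g⁻¹ * y.1.1 * g⁻¹⁻¹) * g⁻¹ ∈ S
    have : g * (g⁻¹ * y.1.1 * g⁻¹⁻¹) * g⁻¹ = y.1.1 := by group
    rw [this]
    exact y.1.2⟩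
  left_inv x := by
    ext
    change g⁻¹ * (g * x.1.1 * g⁻¹) * g⁻¹⁻¹ = x.1.1
    group
  right_inv y := by
    ext
    change g * (g⁻¹ * y.1.1 * g⁻¹⁻¹) * g⁻¹ = y.1.1
    group
  map_mul' x y := by
    ext
    change g * (x.1.1 * y.1.1) * g⁻¹ = (g * x.1.1 * g⁻¹) * (g * y.1.1 * g⁻¹)
    group

theorem phi_apply (S : Subgroup G) (x : domA g S) : ((phi g S x).1 : G) = g * x.1.1 * g⁻¹ := rfl

/-- The HNN extension of `S` along the partial conjugation by `g`. -/
abbrev HN (S : Subgroup G) : Type := HNNExtension S (domA g S) (domA g⁻¹ S) (phi g S)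

/-- The relation in the HNN extension. -/
theorem t_conj (S : Subgroup G) (x y : S) (h : g * (x : G) * g⁻¹ = y) :
    (HNNExtension.t : HN g S) * HNNExtension.of x * HNNExtension.t⁻¹ = HNNExtension.of y := by
  have hx : x ∈ domA g S := by
    change g * (x : G) * g⁻¹ ∈ S
    rw [h]
    exact y.2
  have h1 := HNNExtension.equiv_eq_conj (φ := phi g S) (⟨x, hx⟩ : domA g S)
  rw [← h1]
  congr 1
  exact Subtype.ext h

/-- Functoriality. -/
def hnMap {S T : Subgroup G} (h : S ≤ T) : HN g S →* HN g T :=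
  HNNExtension.lift (HNNExtension.of.comp (Subgroup.inclusion h)) HNNExtension.t (fun a => by
    have h1 := t_conj g T (Subgroup.inclusion h a) (Subgroup.inclusion h (phi g S a).1) rfl
    change HNNExtension.t * HNNExtension.of (Subgroup.inclusion h a.1) =
      HNNExtension.of (Subgroup.inclusion h (phi g S a).1) * HNNExtension.t
    rw [← h1, inv_mul_cancel_right])

@[simp] theorem hnMap_of {S T : Subgroup G} (h : S ≤ T) (x : S) :
    hnMap g h (HNNExtension.of x) = HNNExtension.of (Subgroup.inclusion h x) := by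
  simp [hnMap]

@[simp] theorem hnMap_t {S T : Subgroup G} (h : S ≤ T) :
    hnMap g h HNNExtension.t = HNNExtension.t := by
  simp [hnMap]

theorem hnMap_comp {S T U : Subgroup G} (h : S ≤ T) (h' : T ≤ U) (x : HN g S) :
    hnMap g h' (hnMap g h x) = hnMap g (h.trans h') x := by
  have : (hnMap g h').comp (hnMap g h) = hnMap g (h.trans h') := by
    refine HNNExtension.hom_ext ?_ ?_
    · ext y
      simp
      rfl
    · simp
  exact DFunLike.congr_fun this x

/-- The map to a subgroup which contains `S` and `g`. -/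
def hnTo {S P : Subgroup G} (h : S ≤ P) (hg : g ∈ P) : HN g S →* P :=
  HNNExtension.lift (Subgroup.inclusion h) ⟨g, hg⟩ (fun a => by
    ext
    change g * (a.1.1 : G) = (g * a.1.1 * g⁻¹) * g
    group)

@[simp] theorem hnTo_of {S P : Subgroup G} (h : S ≤ P) (hg : g ∈ P) (x : S) :
    hnTo g h hg (HNNExtension.of x) = Subgroup.inclusion h x := by
  simp [hnTo]

@[simp] theorem hnTo_t {S P : Subgroup G} (h : S ≤ P) (hg : g ∈ P) :
    hnTo g h hg HNNExtension.t = ⟨g, hg⟩ := by
  simp [hnTo]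

theorem hnTo_comp {S T P : Subgroup G} (h : S ≤ T) (h' : T ≤ P) (hg : g ∈ P) (x : HN g S) :
    hnTo g h' hg (hnMap g h x) = hnTo g (h.trans h') hg x := by
  have : (hnTo g h' hg).comp (hnMap g h) = hnTo g (h.trans h') hg := by
    refine HNNExtension.hom_ext ?_ ?_
    · ext y
      simp
    · simp
  exact DFunLike.congr_fun this x

variable {I : Type} [Preorder I] [IsDirectedOrder I] {S : I → Subgroup G} (hS : Monotone S)
  {N : Subgroup G} [N.Normal] (hle : ∀ i, S i ≤ N) (hcov : ∀ x ∈ N, ∃ i, x ∈ S i)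

include hle hcov in
/-- Conjugation of an element by a power of `t`, for large `j`. -/
theorem exists_conj_zpow (k : ℤ) (i : I) (x : S i) :
    ∃ j, ∃ h : i ≤ j, ∃ y : S j, (y : G) = g ^ k * x * g ^ (-k) ∧
      (HNNExtension.t : HN g (S j)) ^ k * HNNExtension.of (Subgroup.inclusion (hS h) x) *
        HNNExtension.t ^ (-k) = HNNExtension.of y := by
  have hN : ∀ (k : ℤ) (x : G), x ∈ N → g ^ k * x * g ^ (-k) ∈ N := fun k x hx => by
    rw [zpow_neg]
    exact Subgroup.Normal.conj_mem ‹_› x hx _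
  induction k with
  | zero => exact ⟨i, le_rfl, x, by simp, by
      simp only [zpow_zero, neg_zero, one_mul, mul_one]
      rfl⟩
  | succ k ih =>
    obtain ⟨j, h, y, hy, hy'⟩ := ih
    obtain ⟨j', hj'⟩ := hcov _ (hN (k + 1) x (hle i x.2))
    obtain ⟨l, hl, hl'⟩ := exists_ge_ge j j'
    refine ⟨l, h.trans hl, ⟨_, hS hl' hj'⟩, rfl, ?_⟩
    have h1 := congrArg (hnMap g (hS hl)) hy'
    simp only [map_mul, map_zpow, hnMap_t, hnMap_of] at h1
    have h2 := t_conj g (S l) (Subgroup.inclusion (hS hl) y)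
      ⟨g ^ ((k : ℤ) + 1) * x * g ^ (-((k : ℤ) + 1)), hS hl' hj'⟩ (by
        change g * (y : G) * g⁻¹ = g ^ ((k : ℤ) + 1) * x * g ^ (-((k : ℤ) + 1))
        rw [hy]
        group)
    rw [← h2, ← h1]
    have h3 : Subgroup.inclusion (hS hl) (Subgroup.inclusion (hS h) x) =
      Subgroup.inclusion (hS (h.trans hl)) x := rfl
    rw [h3]
    group
  | pred k ih =>
    obtain ⟨j, h, y, hy, hy'⟩ := ih
    obtain ⟨j', hj'⟩ := hcov _ (hN (-k - 1) x (hle i x.2))
    obtain ⟨l, hl, hl'⟩ := exists_ge_ge j j'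
    refine ⟨l, h.trans hl, ⟨_, hS hl' hj'⟩, rfl, ?_⟩
    have h1 := congrArg (hnMap g (hS hl)) hy'
    simp only [map_mul, map_zpow, hnMap_t, hnMap_of] at h1
    have h2 := t_conj g (S l)
      ⟨g ^ (-(k : ℤ) - 1) * x * g ^ (-(-(k : ℤ) - 1)), hS hl' hj'⟩
      (Subgroup.inclusion (hS hl) y) (by
        change g * (g ^ (-(k : ℤ) - 1) * x * g ^ (-(-(k : ℤ) - 1))) * g⁻¹ = (y : G)
        rw [hy]
        group)
    have h3 : Subgroup.inclusion (hS hl) (Subgroup.inclusion (hS h) x) =
      Subgroup.inclusion (hS (h.trans hl)) x := rfl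
    rw [← h1, h3] at h2
    have h4 : ∀ (a b c t : HN g (S l)), t * a * t⁻¹ = b → t⁻¹ * b * t = a := by
      intro a b c t hab
      rw [← hab]
      group
    rw [← h4 _ _ 1 _ h2]
    group

include hle hcov in
/-- Every element of the HNN extension becomes `x * t ^ k`. -/
theorem exists_form (i : I) (w : HN g (S i)) :
    ∃ j, ∃ h : i ≤ j, ∃ (x : S j) (k : ℤ),
      hnMap g (hS h) w = HNNExtension.of x * HNNExtension.t ^ k := by
  induction w using HNNExtension.induction_on with
  | of x => exact ⟨i, le_rfl, x, 0, by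
      rw [hnMap_of, zpow_zero, mul_one]
      rfl⟩
  | t => exact ⟨i, le_rfl, 1, 1, by simp⟩
  | mul a b ha hb =>
    obtain ⟨j, h, x, k, hx⟩ := ha
    obtain ⟨j', h', y, l, hy⟩ := hb
    obtain ⟨m, hm, hm'⟩ := exists_ge_ge j j'
    obtain ⟨n, hn, z, hz, hz'⟩ :=
      exists_conj_zpow g hS hle hcov k m (Subgroup.inclusion (hS hm') y)
    refine ⟨n, (h.trans hm).trans hn, Subgroup.inclusion (hS (hm.trans hn)) x * z, k + l, ?_⟩
    have h1 := congrArg (hnMap g (hS (hm.trans hn))) hx
    have h2 := congrArg (hnMap g (hS (hm'.trans hn))) hy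
    rw [hnMap_comp] at h1 h2
    have h3 : Subgroup.inclusion (hS hn) (Subgroup.inclusion (hS hm') y) =
      Subgroup.inclusion (hS (hm'.trans hn)) y := rfl
    rw [map_mul HNNExtension.of, ← hz', h3, map_mul, h1, h2]
    simp only [map_mul, map_zpow, hnMap_t, hnMap_of]
    rw [zpow_add]
    group
  | inv a ha =>
    obtain ⟨j, h, x, k, hx⟩ := ha
    obtain ⟨n, hn, z, hz, hz'⟩ := exists_conj_zpow g hS hle hcov (-k) j x⁻¹
    refine ⟨n, h.trans hn, z, -k, ?_⟩
    have h1 := congrArg (hnMap g (hS hn)) hx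
    rw [hnMap_comp] at h1
    rw [map_inv, h1, ← hz']
    simp only [map_mul, map_zpow, hnMap_t, hnMap_of, map_inv]
    group

end loc

variable {C : ∀ (G : Type) [Group G], Prop}

/-- Directed unions. -/
theorem mem_of_directed (hC : ClosedClass C) {G I : Type} [Group G] [Preorder I]
    [IsDirectedOrder I] [Nonempty I] {S : I → Subgroup G} (hS : Monotone S) {N : Subgroup G}
    (hle : ∀ i, S i ≤ N) (hcov : ∀ x ∈ N, ∃ i, x ∈ S i) (h : ∀ i, C (S i)) : C N := by
  refine hC.colimit I (fun i => S i) (fun i j hij => Subgroup.inclusion (hS hij))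
    (fun _ _ _ _ _ _ => rfl) N (fun i => Subgroup.inclusion (hle i)) (fun _ _ _ _ => rfl)
    (fun x => ?_) (fun s y hy => ⟨s, le_rfl, ?_⟩) h
  · obtain ⟨i, hi⟩ := hcov x x.2
    exact ⟨i, ⟨x, hi⟩, rfl⟩
  · have : y = 1 := Subgroup.inclusion_injective (hle s) (hy.trans (map_one _).symm)
    rw [this, map_one]

/-- **The local conjugation principle**, normal subgroups. -/
theorem mem_of_local' (hC : ExtClass C) {G I : Type} [Group G] [Preorder I]
    [IsDirectedOrder I] [Nonempty I] {S : I → Subgroup G} (hS : Monotone S) {N : Subgroup G}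
    [N.Normal] (hQ : C (G ⧸ N)) (hle : ∀ i, S i ≤ N) (hcov : ∀ x ∈ N, ∃ i, x ∈ S i)
    (hloc : ∀ (g : G) (i : I), ∃ (Q : Type) (_ : Group Q) (e : S i →* Q) (q : Q), C Q ∧
      Function.Injective e ∧ ∀ x y : S i, g * (x : G) * g⁻¹ = y → q * e x * q⁻¹ = e y) : C G := by
  have hSi : ∀ i, C (S i) := fun i => by
    obtain ⟨Q, _, e, _, hQ, he, _⟩ := hloc 1 i
    exact hC.inj e he hQ
  refine hC.ext G (G ⧸ N) (QuotientGroup.mk' N) hQ fun r => ?_
  obtain ⟨g, rfl⟩ := QuotientGroup.mk'_surjective N r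
  set P : Subgroup G := (Subgroup.zpowers (QuotientGroup.mk' N g)).comap (QuotientGroup.mk' N)
    with hP
  have hNP : N ≤ P := fun x hx => by
    rw [hP, Subgroup.mem_comap]
    have : (QuotientGroup.mk' N) x = 1 := (QuotientGroup.eq_one_iff x).2 hx
    rw [this]
    exact one_mem _
  have hgP : g ∈ P := Subgroup.mem_zpowers _
  by_cases hq : IsOfFinOrder (QuotientGroup.mk' N g)
  · have : Finite (Subgroup.zpowers (QuotientGroup.mk' N g)) := hq.finite_zpowers
    let p := (QuotientGroup.mk' N).subgroupComap (Subgroup.zpowers (QuotientGroup.mk' N g))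
    refine hC.finiteIndex _ p.ker inferInstance ?_
    have hker : ∀ x : p.ker, x.1.1 ∈ N := fun x => by
      have h1 : (p x.1).1 = 1 := congrArg Subtype.val x.2
      exact (QuotientGroup.eq_one_iff _).1 h1
    refine hC.inj (H := N)
      { toFun := fun x => ⟨x.1.1, hker x⟩
        map_one' := rfl
        map_mul' := fun a b => rfl } ?_
      (mem_of_directed hC.toClosedClass hS hle hcov hSi)
    intro a b hab
    have h1 : (⟨a.1.1, hker a⟩ : N) = ⟨b.1.1, hker b⟩ := hab
    have h2 : (a.1.1 : G) = b.1.1 := congrArg (fun x : N => (x : G)) h1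
    exact Subtype.ext (Subtype.ext h2)
  · refine hC.colimit I (fun i => HN g (S i)) (fun i j hij => hnMap g (hS hij))
      (fun i j k hij hjk x => hnMap_comp g _ _ x) P
      (fun i => hnTo g ((hle i).trans hNP) hgP) (fun i j hij x => hnTo_comp g _ _ hgP x)
      ?_ ?_ ?_
    · intro x
      obtain ⟨k, hk⟩ := Subgroup.mem_zpowers_iff.1 x.2
      have h1 : (x : G) * g ^ (-k) ∈ N := by
        rw [← QuotientGroup.eq_one_iff, zpow_neg]
        change (QuotientGroup.mk' N) (x * (g ^ k)⁻¹) = 1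
        rw [map_mul, map_inv, map_zpow, hk, mul_inv_cancel]
      obtain ⟨i, hi⟩ := hcov _ h1
      refine ⟨i, HNNExtension.of ⟨_, hi⟩ * HNNExtension.t ^ k, ?_⟩
      ext
      simp
    · intro i w hw
      obtain ⟨j, h, x, k, hx⟩ := exists_form g hS hle hcov i w
      refine ⟨j, h, ?_⟩
      have h1 := hnTo_comp g (hS h) ((hle j).trans hNP) hgP w
      rw [hx, hw] at h1
      have h2 : (x : G) * g ^ k = 1 := by
        have := congrArg Subtype.val h1
        simpa using this
      have hk : k = 0 := by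
        by_contra hk
        apply hq
        rw [isOfFinOrder_iff_zpow_eq_one]
        refine ⟨k, hk, ?_⟩
        rw [← map_zpow]
        refine (QuotientGroup.eq_one_iff _).2 ?_
        have h3 : g ^ k = (x : G)⁻¹ := (inv_eq_of_mul_eq_one_right h2).symm
        rw [h3]
        exact inv_mem (hle j x.2)
      rw [hk, zpow_zero, mul_one] at h2
      have h4 : x = 1 := Subtype.ext h2
      rw [hx, hk, h4]
      simp
    · intro i
      obtain ⟨Q, _, e, q, hQ, he, hq'⟩ := hloc g i
      refine mem_hnn hC (phi g (S i)) hQ e he q fun a => ?_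
      have h1 := hq' a.1 (phi g (S i) a).1 rfl
      rw [← h1, inv_mul_cancel_right]

/-- **The local conjugation principle.** -/
theorem mem_of_local (hC : ExtClass C) {G R I : Type} [Group G] [Group R] [Preorder I]
    [IsDirectedOrder I] [Nonempty I] (p : G →* R) (hR : C R) {S : I → Subgroup G}
    (hS : Monotone S) (hp : ∀ x, p x = 1 ↔ ∃ i, x ∈ S i)
    (hloc : ∀ (g : G) (i : I), ∃ (Q : Type) (_ : Group Q) (e : S i →* Q) (q : Q), C Q ∧
      Function.Injective e ∧ ∀ x y : S i, g * (x : G) * g⁻¹ = y → q * e x * q⁻¹ = e y) : C G :=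
  mem_of_local' hC hS (N := p.ker)
    (hC.inj (QuotientGroup.kerLift p) (QuotientGroup.kerLift_injective p) hR)
    (fun i x hx => (hp x).2 ⟨i, hx⟩) (fun x hx => (hp x).1 hx) hloc

end Pool.Agent.T59
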