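import Pool.Agent.T59.Loc

/-!
# Consequences of the local conjugation principle

Semidirect products `N ⋊ Q` in which the automorphisms of `N` given by the elements of `Q` are
locally equal to automorphisms of finite order; groups with an action of the symmetric group of a
`Q`-set; restricted permutational wreath products.
-/

set_option autoImplicit false

namespace Pool.Agent.T59

open Pool.Agent.Helper29.BA Pool.Agent.Helper29.PA

variable {C : ∀ (G : Type) [Group G], Prop}

/-- `N ⋊ ⟨θ⟩` for an automorphism `θ` of finite order. -/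
theorem mem_zpowers_ext (hC : ClosedClass C) {N : Type} [Group N] (hN : C N) (θ : MulAut N)
    (hθ : IsOfFinOrder θ) : C (N ⋊[(Subgroup.zpowers θ).subtype] Subgroup.zpowers θ) := by
  have : Finite (Subgroup.zpowers θ) := hθ.finite_zpowers
  let p := (SemidirectProduct.rightHom :
    N ⋊[(Subgroup.zpowers θ).subtype] Subgroup.zpowers θ →* Subgroup.zpowers θ)
  refine hC.finiteIndex _ p.ker inferInstance ?_
  have hker : ∀ x : p.ker, x.1.right = 1 := fun x => x.2
  refine hC.inj (H := N)
    { toFun := fun x => x.1.left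
      map_one' := rfl
      map_mul' := fun a b => by
        change a.1.left * (Subgroup.zpowers θ).subtype a.1.right b.1.left = _
        rw [hker a, map_one]
        rfl } ?_ hN
  intro a b hab
  apply Subtype.ext
  ext
  · exact hab
  · rw [hker a, hker b]

/-- Semidirect products by automorphisms which are locally of finite order. -/
theorem mem_semidirect (hC : ExtClass C) {N Q I : Type} [Group N] [Group Q] [Preorder I]
    [IsDirectedOrder I] [Nonempty I] (α : Q →* MulAut N) (hQ : C Q) {S : I → Subgroup N}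
    (hS : Monotone S) (hcov : ∀ x, ∃ i, x ∈ S i) (hSC : ∀ i, C (S i))
    (hloc : ∀ (q : Q) (i : I), ∃ j, ∃ h : i ≤ j, ∃ θ : MulAut (S j), IsOfFinOrder θ ∧
      ∀ x (hx : x ∈ S i), (θ ⟨x, hS h hx⟩ : N) = α q x) : C (N ⋊[α] Q) := by
  refine mem_of_local hC (SemidirectProduct.rightHom) hQ (S := fun i => (S i).map
    SemidirectProduct.inl) (fun i j hij => Subgroup.map_mono (hS hij)) ?_ ?_
  · intro x
    constructor
    · intro hx
      obtain ⟨i, hi⟩ := hcov x.left
      refine ⟨i, x.left, hi, ?_⟩
      ext
      · rfl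
      · exact hx.symm
    · rintro ⟨i, y, _, rfl⟩
      simp
  · intro g i
    obtain ⟨j0, hj0⟩ := hcov g.left
    obtain ⟨j1, h1, h1'⟩ := exists_ge_ge i j0
    obtain ⟨j, h, θ, hθ, hθ'⟩ := hloc g.right j1
    have hmem : ∀ x : (S i).map (SemidirectProduct.inl : N →* N ⋊[α] Q),
        x.1.left ∈ S i ∧ x.1.right = 1 := by
      rintro ⟨x, y, hy, rfl⟩
      exact ⟨by simpa using hy, by simp⟩
    refine ⟨_, inferInstance,
      { toFun := fun x => (⟨⟨x.1.left, hS (h1.trans h) (hmem x).1⟩, 1⟩ :
          S j ⋊[(Subgroup.zpowers θ).subtype] Subgroup.zpowers θ)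
        map_one' := rfl
        map_mul' := fun a b => ?_ },
      ⟨⟨g.left, hS h (hS h1' hj0)⟩, ⟨θ, Subgroup.mem_zpowers θ⟩⟩,
      mem_zpowers_ext hC.toClosedClass (hSC j) θ hθ, ?_, ?_⟩
    · ext
      · change a.1.left * α a.1.right b.1.left = a.1.left * b.1.left
        rw [(hmem a).2, map_one]
        rfl
      · simp
    · intro a b hab
      apply Subtype.ext
      ext
      · exact congrArg Subtype.val (congrArg SemidirectProduct.left hab)
      · rw [(hmem a).2, (hmem b).2]
    · intro x y hxy
      have h2 : g * (x : N ⋊[α] Q) = y * g := by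
        rw [← hxy]
        group
      have h3 : g.left * α g.right x.1.left = y.1.left * g.left := by
        have := congrArg SemidirectProduct.left h2
        rw [SemidirectProduct.mul_left, SemidirectProduct.mul_left, (hmem y).2, map_one] at this
        exact this
      rw [mul_inv_eq_iff_eq_mul]
      ext
      · change g.left * (θ ⟨x.1.left, _⟩ : N) = y.1.left * g.left
        rw [← h3, hθ' x.1.left (hS h1 (hmem x).1)]
      · simp

section perm

variable {X : Type}

theorem inv_app (σ : Equiv.Perm X) (x : X) : σ⁻¹ (σ x) = x := σ.symm_apply_apply x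

theorem app_inv (σ : Equiv.Perm X) (x : X) : σ (σ⁻¹ x) = x := σ.apply_symm_apply x

open Classical in
/-- A permutation is equal on a finite set to a permutation of a finite set. -/
theorem exists_perm (s : Equiv.Perm X) (W : Finset X) : ∃ W' : Finset X, W ⊆ W' ∧
    ∃ σ : Equiv.Perm X, IsOfFinOrder σ ∧ (∀ x ∈ W, σ x = s x) ∧ ∀ x ∉ W', σ x = x := by
  let W' : Finset X := W ∪ W.image s
  let e : {x : W' // x.1 ∈ W} ≃ {x : W' // x.1 ∈ W.image s} :=
    { toFun := fun x => ⟨⟨s x.1.1, Finset.mem_union_right _ (Finset.mem_image_of_mem _ x.2)⟩,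
        Finset.mem_image_of_mem _ x.2⟩
      invFun := fun y => ⟨⟨s⁻¹ y.1.1, Finset.mem_union_left _ (by
        obtain ⟨z, hz, hzy⟩ := Finset.mem_image.1 y.2
        rw [← hzy]
        simpa using hz)⟩, by
        obtain ⟨z, hz, hzy⟩ := Finset.mem_image.1 y.2
        change s⁻¹ y.1.1 ∈ W
        rw [← hzy]
        simpa using hz⟩
      left_inv := fun x => by
        ext
        simp
      right_inv := fun x => by
        ext
        simp }
  refine ⟨W', Finset.subset_union_left, Equiv.Perm.ofSubtype e.extendSubtype,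
    MonoidHom.isOfFinOrder _ (isOfFinOrder_of_finite _), ?_, ?_⟩
  · intro x hx
    have hx' : x ∈ W' := Finset.mem_union_left _ hx
    have h1 := Equiv.Perm.ofSubtype_apply_of_mem (p := (· ∈ W')) e.extendSubtype hx'
    rw [h1]
    have h2 := e.extendSubtype_apply_of_mem ⟨x, hx'⟩ hx
    rw [h2]
    rfl
  · intro x hx
    exact Equiv.Perm.ofSubtype_apply_of_not_mem (p := (· ∈ W')) e.extendSubtype hx

/-- The elements fixed by all the permutations which fix `W` pointwise. -/
def fixN (N : Type) [Group N] [MulDistribMulAction (Equiv.Perm X) N] (W : Finset X) :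
    Subgroup N where
  carrier := {n | ∀ σ : Equiv.Perm X, (∀ x ∈ W, σ x = x) → σ • n = n}
  one_mem' := fun σ _ => smul_one σ
  mul_mem' := fun {a b} ha hb σ hσ => by rw [smul_mul', ha σ hσ, hb σ hσ]
  inv_mem' := fun {a} ha σ hσ => by rw [smul_inv', ha σ hσ]

theorem fixN_mono {N : Type} [Group N] [MulDistribMulAction (Equiv.Perm X) N] :
    Monotone (fixN (X := X) N) := fun _ _ h _ hn σ hσ => hn σ fun x hx => hσ x (h hx)

theorem smul_mem_fixN {N : Type} [Group N] [MulDistribMulAction (Equiv.Perm X) N]
    {W : Finset X} {σ : Equiv.Perm X} (hσ : ∀ x ∈ W, σ x ∈ W) {n : N} (hn : n ∈ fixN N W) :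
    σ • n ∈ fixN N W := by
  intro τ hτ
  have h1 : (σ⁻¹ * τ * σ) • n = n := hn _ fun x hx => by
    rw [Equiv.Perm.mul_apply, Equiv.Perm.mul_apply, hτ _ (hσ x hx), inv_app]
  calc τ • σ • n = σ • (σ⁻¹ * τ * σ) • n := by
        rw [smul_smul, smul_smul]
        congr 1
        group
    _ = σ • n := by rw [h1]

/-- The action of `Q` on `N` through the symmetric group of `X`. -/
def permAct (Q X N : Type) [Group Q] [MulAction Q X] [Group N]
    [MulDistribMulAction (Equiv.Perm X) N] : Q →* MulAut N :=
  (MulDistribMulAction.toMulAut (Equiv.Perm X) N).comp (MulAction.toPermHom Q X)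

/-- Groups with a smooth action of the symmetric group of a `Q`-set. -/
theorem mem_permAct (hC : ExtClass C) (Q X N : Type) [Group Q] [MulAction Q X] [Group N]
    [MulDistribMulAction (Equiv.Perm X) N] (hQ : C Q)
    (hsm : ∀ n : N, ∃ W : Finset X, n ∈ fixN N W) (hN : ∀ W : Finset X, C (fixN N W)) :
    C (N ⋊[permAct Q X N] Q) := by
  refine mem_semidirect hC (permAct Q X N) hQ (S := fixN N) fixN_mono hsm hN fun q W => ?_
  obtain ⟨W', hWW', σ, hσ, hσ1, hσ2⟩ := exists_perm (MulAction.toPermHom Q X q) W
  have hσ3 : ∀ x ∈ W', σ x ∈ W' := by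
    intro x hx
    by_contra h
    have h1 := hσ2 _ h
    have h2 := σ.injective h1
    rw [h2] at h
    exact h hx
  have hσ4 : ∀ x ∈ W', σ⁻¹ x ∈ W' := by
    intro x hx
    by_contra h
    have h1 := hσ2 _ h
    rw [app_inv] at h1
    rw [← h1] at h
    exact h hx
  let θ : MulAut (fixN N W') :=
    { toFun := fun n => ⟨σ • n.1, smul_mem_fixN hσ3 n.2⟩
      invFun := fun n => ⟨σ⁻¹ • n.1, smul_mem_fixN hσ4 n.2⟩
      left_inv := fun n => Subtype.ext (inv_smul_smul σ n.1)
      right_inv := fun n => Subtype.ext (smul_inv_smul σ n.1)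
      map_mul' := fun a b => Subtype.ext (smul_mul' σ a.1 b.1) }
  have hθ : ∀ (k : ℕ) (n : fixN N W'), ((θ ^ k) n).1 = σ ^ k • n.1 := by
    intro k
    induction k with
    | zero => intro n; simp
    | succ k ih =>
      intro n
      rw [pow_succ, MulAut.mul_apply, ih, pow_succ, mul_smul]
      rfl
  refine ⟨W', hWW', θ, ?_, ?_⟩
  · obtain ⟨k, hk, hk'⟩ := hσ.exists_pow_eq_one
    rw [isOfFinOrder_iff_pow_eq_one]
    refine ⟨k, hk, ?_⟩
    ext n
    rw [hθ, hk', one_smul]
    rfl
  · intro n hn
    change σ • n = MulAction.toPermHom Q X q • n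
    have h1 : (σ⁻¹ * MulAction.toPermHom Q X q) • n = n := hn _ fun x hx => by
      rw [Equiv.Perm.mul_apply, ← hσ1 x hx, inv_app]
    rw [mul_smul, inv_smul_eq_iff] at h1
    exact h1.symm

end perm

section wreath

/-- The group of the finitely supported functions `X → H`. -/
def FS (H X : Type) [Group H] : Subgroup (X → H) where
  carrier := {f | {x | f x ≠ 1}.Finite}
  one_mem' := by simp
  mul_mem' := fun {a b} ha hb => by
    refine (ha.union hb).subset fun x hx => ?_
    by_contra h
    rw [Set.mem_union, not_or] at h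
    simp only [Set.mem_ofPred_eq, not_not] at h
    exact hx (by rw [Pi.mul_apply, h.1, h.2, mul_one])
  inv_mem' := fun {a} ha => by
    refine ha.subset fun x hx => ?_
    simpa using hx

/-- The permutations of `X` act on the finitely supported functions. -/
instance (H X : Type) [Group H] : MulDistribMulAction (Equiv.Perm X) (FS H X) where
  smul σ f := ⟨fun x => f.1 (σ⁻¹ x), by
    refine (Set.Finite.image σ f.2).subset fun x hx => ⟨σ⁻¹ x, hx, by simp⟩⟩
  one_smul f := rfl
  mul_smul σ τ f := by
    apply Subtype.ext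
    funext x
    change f.1 ((σ * τ)⁻¹ x) = f.1 (τ⁻¹ (σ⁻¹ x))
    rw [mul_inv_rev, Equiv.Perm.mul_apply]
  smul_mul σ f g := rfl
  smul_one σ := rfl

theorem FS_smul_apply {H X : Type} [Group H] (σ : Equiv.Perm X) (f : FS H X) (x : X) :
    (σ • f).1 x = f.1 (σ⁻¹ x) := rfl

/-- The restricted wreath product of `H` and `Q` over the `Q`-set `X`. -/
abbrev RW (H Q X : Type) [Group H] [Group Q] [MulAction Q X] : Type :=
  FS H X ⋊[permAct Q X (FS H X)] Q

open Classical in
theorem mem_wreath (hC : ExtClass C) (H Q X : Type) [Group H] [Group Q] [MulAction Q X]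
    (hH : C H) (hQ : C Q) : C (RW H Q X) := by
  refine mem_permAct hC Q X (FS H X) hQ ?_ ?_
  · intro f
    refine ⟨f.2.toFinset, fun σ hσ => ?_⟩
    apply Subtype.ext
    funext x
    rw [FS_smul_apply]
    by_cases hx : f.1 x = 1
    · by_cases hx' : f.1 (σ⁻¹ x) = 1
      · rw [hx, hx']
      · exfalso
        have h1 := hσ (σ⁻¹ x) (by simpa using hx')
        rw [app_inv] at h1
        rw [← h1] at hx'
        exact hx' hx
    · have h1 := hσ x (by simpa using hx)
      rw [show σ⁻¹ x = x by rw [Equiv.Perm.inv_eq_iff_eq, h1]]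
  · intro W
    by_cases hW : ∃ o, o ∉ W
    · obtain ⟨o, ho⟩ := hW
      refine hC.inj (H := (W → H) × H)
        { toFun := fun f => (fun x => f.1.1 x.1, f.1.1 o)
          map_one' := rfl
          map_mul' := fun _ _ => rfl } ?_ (hC.prod _ _ (hC.pi hH) hH)
      intro f g hfg
      apply Subtype.ext
      apply Subtype.ext
      funext x
      by_cases hx : x ∈ W
      · exact congrFun (congrArg Prod.fst hfg) ⟨x, hx⟩
      · have h1 : ∀ f ∈ fixN (FS H X) W, f.1 x = f.1 o := by
          intro f hf
          have h2 := hf (Equiv.swap x o) fun y hy => Equiv.swap_apply_of_ne_of_ne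
            (fun h => hx (h ▸ hy)) (fun h => ho (h ▸ hy))
          have h3 := congrArg (fun f : FS H X => f.1 x) h2
          simp only [FS_smul_apply] at h3
          rw [← h3, Equiv.swap_inv, Equiv.swap_apply_left]
        rw [h1 _ f.2, h1 _ g.2]
        exact congrArg Prod.snd hfg
    · refine hC.inj (H := W → H)
        { toFun := fun f => fun x => f.1.1 x.1
          map_one' := rfl
          map_mul' := fun _ _ => rfl } ?_ (hC.pi hH)
      intro f g hfg
      apply Subtype.ext
      apply Subtype.ext
      funext x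
      exact congrFun hfg ⟨x, not_not.1 fun h => hW ⟨x, h⟩⟩

end wreath

end Pool.Agent.T59
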